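import Pool.Agent.Lib.MP_e21d7a_al.Cls.Geom

/-! Height, the invariant cone and the hypothesis on parabolic subgroups. -/

set_option linter.unusedSectionVars false

namespace Pool.Agent.Lib.MP_e21d7a_al.Cls

open Filter Topology CoxeterSystem

variable {B W : Type*} [Group W] [Fintype B] [DecidableEq B] {M : CoxeterMatrix B} [Gram M]
  (cs : CoxeterSystem M W)

/-- Height of a vector. -/
def ht (v : B → ℝ) : ℝ := ∑ t, v t

/-- Vectors whose whole orbit stays in the positive cone. -/
def InY (v : B → ℝ) : Prop := ∀ w, 0 ≤ rho cs w v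

/-- No two commuting infinite standard parabolic subgroups. -/
def Hyp : Prop := ∀ I J : Set B, (∀ i ∈ I, ∀ j ∈ J, M i j = 2) →
  (WJ cs I : Set W).Finite ∨ (WJ cs J : Set W).Finite

theorem ht_add (u v : B → ℝ) : ht (u + v) = ht u + ht v := by
  simp [ht, Finset.sum_add_distrib]

theorem ht_sub (u v : B → ℝ) : ht (u - v) = ht u - ht v := by
  simp [ht, Finset.sum_sub_distrib]

theorem ht_smul (c : ℝ) (v : B → ℝ) : ht (c • v) = c * ht v := by
  simp [ht, Finset.mul_sum]

theorem ht_al (s : B) : ht (al s) = 1 := by simp [ht, al_apply]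

theorem ht_nonneg {v : B → ℝ} (h : 0 ≤ v) : 0 ≤ ht v := Finset.sum_nonneg fun t _ => h t

theorem le_ht {v : B → ℝ} (h : 0 ≤ v) (t : B) : v t ≤ ht v :=
  Finset.single_le_sum (f := v) (fun t _ => h t) (Finset.mem_univ t)

theorem ht_pos {v : B → ℝ} (h : 0 ≤ v) (hv : v ≠ 0) : 0 < ht v := by
  obtain ⟨t, ht⟩ := Function.ne_iff.1 hv
  exact lt_of_lt_of_le (lt_of_le_of_ne (h t) (Ne.symm ht)) (le_ht h t)

theorem continuous_ht : Continuous (ht : (B → ℝ) → ℝ) := by
  unfold ht; fun_prop

theorem continuous_bf : Continuous fun p : (B → ℝ) × (B → ℝ) => bf M p.1 p.2 := by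
  simp only [bf_apply]; fun_prop

theorem tendsto_bf {X : Type*} {l : Filter X} {f g : X → B → ℝ} {a b : B → ℝ}
    (hf : Tendsto f l (𝓝 a)) (hg : Tendsto g l (𝓝 b)) :
    Tendsto (fun x => bf M (f x) (g x)) l (𝓝 (bf M a b)) := by
  simp only [bf_apply]
  refine tendsto_finsetSum _ fun s _ => tendsto_finsetSum _ fun t _ => ?_
  exact ((tendsto_pi_nhds.1 hf s).mul_const _).mul (tendsto_pi_nhds.1 hg t)

theorem continuous_bf_left (b : B → ℝ) : Continuous fun v : B → ℝ => bf M v b := by
  simp only [bf_apply]; fun_prop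

theorem continuous_bf_self : Continuous fun v : B → ℝ => bf M v v := by
  simp only [bf_apply]; fun_prop

theorem continuous_rho (w : W) : Continuous (rho cs w) := LinearMap.continuous_on_pi _

theorem ht_simple (s : B) (v : B → ℝ) :
    ht (rho cs (cs.simple s) v) = ht v - 2 * bf M v (al s) := by
  rw [rho_simple, ht_sub, ht_smul, ht_al, bf_symm, mul_one]

/-- The part of the positive cone of height at most `C` is compact. -/
theorem isCompact_ht (C : ℝ) : IsCompact {v : B → ℝ | 0 ≤ v ∧ ht v ≤ C} := by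
  refine (isCompact_Icc (a := 0) (b := fun _ => C)).of_isClosed_subset ?_ ?_
  · exact (isClosed_le continuous_const continuous_id).inter
      (isClosed_le continuous_ht continuous_const)
  · exact fun v hv => ⟨hv.1, fun t => (le_ht hv.1 t).trans hv.2⟩

variable {cs}

theorem InY.nonneg {v : B → ℝ} (h : InY cs v) : 0 ≤ v := by simpa using h 1

theorem InY.rho {v : B → ℝ} (h : InY cs v) (x : W) : InY cs (rho cs x v) := fun w => by
  rw [← rho_mul]; exact h _

theorem InY.add {u v : B → ℝ} (hu : InY cs u) (hv : InY cs v) : InY cs (u + v) := fun w => by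
  rw [map_add]; exact add_nonneg (hu w) (hv w)

theorem InY.smul {v : B → ℝ} (hv : InY cs v) {c : ℝ} (hc : 0 ≤ c) : InY cs (c • v) := fun w => by
  rw [map_smul]; exact smul_nonneg hc (hv w)

theorem Dom.inY {k : B → ℝ} (hk : Dom M k) (h0 : 0 ≤ k) : InY cs k := fun w =>
  h0.trans (hk.le_rho cs w)

theorem isClosed_InY : IsClosed {v : B → ℝ | InY cs v} := by
  simp only [InY, Set.ofPred_forall]
  exact isClosed_iInter fun w => isClosed_le continuous_const (continuous_rho cs w)

theorem isClosed_Dom : IsClosed {v : B → ℝ | Dom M v} := by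
  simp only [Dom, Set.ofPred_forall]
  exact isClosed_iInter fun s => isClosed_le (continuous_bf_left _) continuous_const

theorem Dom.smul {k : B → ℝ} (hk : Dom M k) {c : ℝ} (hc : 0 ≤ c) : Dom M (c • k) := fun s => by
  rw [map_smul, LinearMap.smul_apply]
  exact mul_nonpos_of_nonneg_of_nonpos hc (hk s)

/-- A nonnegative vector pairs nonpositively with the simple roots outside its support. -/
theorem bf_al_nonpos {v : B → ℝ} (h : 0 ≤ v) {s : B} (hs : v s = 0) : bf M v (al s) ≤ 0 := by
  rw [bf_symm, bf_right_sum]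
  refine Finset.sum_nonpos fun t _ => ?_
  by_cases ht : t = s
  · rw [ht, hs, zero_mul]
  · rw [bf_al_al]; exact mul_nonpos_of_nonneg_of_nonpos (h t) (cm_nonpos (Ne.symm ht))

end Pool.Agent.Lib.MP_e21d7a_al.Cls
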