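import Pool.Agent.Results.MP_e21d7a_al.Classify

/-! Check: the classification gives back the statement for Systems A and B. -/

namespace Pool.Agent.Lib.MP_e21d7a_al.Cls

open Pool.Agent.Lib.MP_e21d7a_al.Proj

universe u v

theorem finite_of_commute {n : ℕ} {M : CoxeterMatrix (Fin n)} {W : Type u} [Group W]
    (cs : CoxeterSystem M W) (I : Set (Fin n)) (h : ∀ i ∈ I, ∀ j ∈ I, i ≠ j → M i j = 2) :
    (Subgroup.closure (cs.simple '' I) : Set W).Finite := by
  let : Gram M := ⟨fun i j => -Real.cos (Real.pi / M i j), fun i j => by rw [M.symmetric],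
    fun _ _ _ => rfl, fun i j h => by simp [h]⟩
  refine finite_WJ cs I fun v a b c => ?_
  have e : bf M v v = ∑ i, v i * v i := by
    rw [bf_apply]
    refine Finset.sum_congr rfl fun i _ => ?_
    rw [Finset.sum_eq_single i, cm_self, mul_one]
    · intro j _ hj
      by_cases hi : i ∈ I
      · by_cases hj' : j ∈ I
        · rw [cm_eq_zero_iff.2 (h i hi j hj' hj.symm), mul_zero, zero_mul]
        · rw [c j hj', mul_zero]
      · rw [c i hi, zero_mul, zero_mul]
    · simp
  obtain ⟨i, hi⟩ := Function.ne_iff.1 b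
  rw [e]
  exact Finset.sum_pos' (fun j _ => mul_self_nonneg _) ⟨i, Finset.mem_univ i, mul_self_pos.2 hi⟩

theorem check_A : OneAcc.{u, v} coxA gramA := by
  intro W _ cs V _ _ _ _ _ _ α B hB
  refine (Pool.Agent.Results.MP_e21d7a_al.Classify.result 4 coxA W cs V α B ?_ ?_ ?_).2 ?_
  · intro i j; rw [hB, hB]; fin_cases i <;> fin_cases j <;> simp [gramA]
  · intro i j; rw [hB]; fin_cases i <;> fin_cases j <;> simp [gramA, coxA]
  · intro i j; rw [hB]; fin_cases i <;> fin_cases j <;> simp [gramA, coxA]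
  · intro I J h
    have key : ∀ i j : Fin 4, coxA i j ≠ 2 := by decide
    by_cases hJ : J = ∅
    · exact Or.inr (finite_of_commute cs J (by simp [hJ]))
    · obtain ⟨j, hj⟩ := Set.nonempty_iff_ne_empty.2 hJ
      exact Or.inl (finite_of_commute cs I fun i hi _ _ _ => absurd (h i hi j hj) (key i j))

theorem check_B : OneAcc.{u, v} coxB gramB := by
  intro W _ cs V _ _ _ _ _ _ α B hB
  refine (Pool.Agent.Results.MP_e21d7a_al.Classify.result 5 coxB W cs V α B ?_ ?_ ?_).2 ?_
  · intro i j; rw [hB, hB]; fin_cases i <;> fin_cases j <;> simp [gramB]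
  · intro i j; rw [hB]; fin_cases i <;> fin_cases j <;> simp [gramB, coxB]
  · intro i j; rw [hB]; fin_cases i <;> fin_cases j <;> simp [gramB, coxB]
  · intro I J h
    have key : ∀ i j k l : Fin 5, i ≠ j → k ≠ l → coxB i k = 2 → coxB i l = 2 → coxB j k = 2 →
        coxB j l = 2 → coxB i j = 2 ∨ coxB k l = 2 := by decide
    by_contra hc
    push Not at hc
    have h1 := mt (finite_of_commute cs I) hc.1
    have h2 := mt (finite_of_commute cs J) hc.2
    push Not at h1 h2
    obtain ⟨i, hi, j, hj, hij, h1⟩ := h1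
    obtain ⟨k, hk, l, hl, hkl, h2⟩ := h2
    exact (key i j k l hij hkl (h i hi k hk) (h i hi l hl) (h j hj k hk) (h j hj l hl)).elim h1 h2

end Pool.Agent.Lib.MP_e21d7a_al.Cls
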