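import Pool.Agent.Lib.MP_e21d7a_al.Cls.Base

/-! Minimisers of the form on a simplex, discreteness of the roots, finite parabolic subgroups. -/

set_option linter.unusedSectionVars false

namespace Pool.Agent.Lib.MP_e21d7a_al.Cls

open Filter Topology CoxeterSystem

variable {B W : Type*} [Group W] [Fintype B] [DecidableEq B] {M : CoxeterMatrix B} [Gram M]
  (cs : CoxeterSystem M W)

theorem ht_normalize {v : B → ℝ} (hv : 0 ≤ v) (hne : v ≠ 0) : ht ((ht v)⁻¹ • v) = 1 := by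
  rw [ht_smul, inv_mul_cancel₀ (ht_pos hv hne).ne']

theorem bf_smul_self (c : ℝ) (v : B → ℝ) : bf M (c • v) (c • v) = c ^ 2 * bf M v v := by
  simp only [map_smul, LinearMap.smul_apply, smul_eq_mul]; ring

theorem pf_min (Z : Set B) {v : B → ℝ} (hv : 0 ≤ v) (hne : v ≠ 0) (hZ : ∀ t, t ∉ Z → v t = 0) :
    ∃ k : B → ℝ, 0 ≤ k ∧ ht k = 1 ∧ (∀ t, t ∉ Z → k t = 0) ∧
      ∀ u : B → ℝ, 0 ≤ u → ht u = 1 → (∀ t, t ∉ Z → u t = 0) → bf M k k ≤ bf M u u := by
  let K : Set (B → ℝ) := {u | 0 ≤ u ∧ ht u ≤ 1} ∩ ({u | ht u = 1} ∩ {u | ∀ t, t ∉ Z → u t = 0})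
  have hK : IsCompact K := by
    refine (isCompact_ht 1).inter_right ((isClosed_eq continuous_ht continuous_const).inter ?_)
    simp only [Set.ofPred_forall]
    exact isClosed_iInter fun t => isClosed_iInter fun _ =>
      isClosed_eq (continuous_apply t) continuous_const
  have h1 := ht_normalize hv hne
  obtain ⟨k, hk, hmin⟩ := hK.exists_isMinOn ⟨(ht v)⁻¹ • v,
    ⟨smul_nonneg (inv_nonneg.2 (ht_nonneg hv)) hv, h1.le⟩, h1, fun t ht => by simp [hZ t ht]⟩
    (continuous_bf_self (M := M)).continuousOn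
  exact ⟨k, hk.1.1, hk.2.1, hk.2.2, fun u a b c => hmin ⟨⟨a, b.le⟩, b, c⟩⟩

theorem dom_of_min {k : B → ℝ} (h0 : 0 ≤ k) (h1 : ht k = 1) (hle : bf M k k ≤ 0)
    (hmin : ∀ u : B → ℝ, 0 ≤ u → ht u = 1 → (∀ t, k t = 0 → u t = 0) → bf M k k ≤ bf M u u) :
    Dom M k := by
  intro s
  by_cases hs : k s = 0
  · exact bf_al_nonpos h0 hs
  have hs' : 0 < k s := lt_of_le_of_ne (h0 s) (Ne.symm hs)
  set m := bf M k k with hm
  set b := bf M k (al s) with hb
  have key : ∀ t : ℝ, 0 < t → t ≤ k s → 2 * (b - m) ≤ t * (m - 2 * b + 1) := by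
    intro t ht0 ht1
    have h2 := hmin ((1 + t) • k - t • al s) (fun r => by
      by_cases hr : r = s
      · subst hr
        simp only [Pi.zero_apply, Pi.sub_apply, Pi.smul_apply, smul_eq_mul, al_self]
        nlinarith
      · simp only [Pi.zero_apply, Pi.sub_apply, Pi.smul_apply, smul_eq_mul, al_ne hr]
        have : 0 ≤ k r := h0 r
        nlinarith) (by rw [ht_sub, ht_smul, ht_smul, h1, ht_al]; ring) (fun r hr => by
      have : r ≠ s := fun h => hs (h ▸ hr)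
      simp [hr, al_ne this])
    simp only [map_sub, map_smul, LinearMap.sub_apply, LinearMap.smul_apply, smul_eq_mul,
      bf_al_self] at h2
    rw [bf_symm (al s) k, ← hm, ← hb] at h2
    have h3 : t * (2 * (b - m)) ≤ t * (t * (m - 2 * b + 1)) := by nlinarith
    exact le_of_mul_le_mul_left h3 ht0
  have h4 : Tendsto (fun t : ℝ => t * (m - 2 * b + 1)) (𝓝[>] 0) (𝓝 (0 * (m - 2 * b + 1))) :=
    (tendsto_id.mul_const _).mono_left nhdsWithin_le_nhds
  have h5 : 2 * (b - m) ≤ 0 * (m - 2 * b + 1) := by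
    refine ge_of_tendsto h4 ?_
    filter_upwards [Ioc_mem_nhdsGT hs'] with t ht using key t ht.1 ht.2
  linarith

theorem exists_dom (Z : Set B) {v : B → ℝ} (hv : 0 ≤ v) (hne : v ≠ 0) (hZ : ∀ t, t ∉ Z → v t = 0)
    (hle : bf M v v ≤ 0) : ∃ k : B → ℝ, 0 ≤ k ∧ Dom M k ∧ k ≠ 0 ∧ ∀ t, t ∉ Z → k t = 0 := by
  obtain ⟨k, h0, h1, h2, h3⟩ := pf_min (M := M) Z hv hne hZ
  refine ⟨k, h0, dom_of_min h0 h1 ?_ fun u a b c => h3 u a b fun t ht => c t (h2 t ht), ?_, h2⟩
  · refine (h3 _ (smul_nonneg (inv_nonneg.2 (ht_nonneg hv)) hv) (ht_normalize hv hne)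
      fun t ht => by simp [hZ t ht]).trans ?_
    rw [bf_smul_self]
    exact mul_nonpos_of_nonneg_of_nonpos (sq_nonneg _) hle
  · rintro rfl
    simp [ht] at h1

theorem finite_roots (R : ℝ) : {v : B → ℝ | IsRoot cs v ∧ ∀ t, |v t| ≤ R}.Finite := by
  by_contra hc
  let g : ℕ → B → ℝ := fun n => (Set.Infinite.natEmbedding _ hc n).1
  have hg : ∀ n, IsRoot cs (g n) ∧ ∀ t, |g n t| ≤ R := fun n => (Set.Infinite.natEmbedding _ hc n).2
  have hinj : Function.Injective g :=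
    Subtype.val_injective.comp (Set.Infinite.natEmbedding _ hc).injective
  obtain ⟨a, -, φ, hφ, hl⟩ := (isCompact_Icc (a := fun _ : B => -R) (b := fun _ => R)).tendsto_subseq
    (x := g) fun n => ⟨fun t => (abs_le.1 ((hg n).2 t)).1, fun t => (abs_le.1 ((hg n).2 t)).2⟩
  have l1 : Tendsto (fun n => g (φ n)) atTop (𝓝 a) := hl
  have l2 : Tendsto (fun n => g (φ (n + 1))) atTop (𝓝 a) := l1.comp (tendsto_add_atTop_nat 1)
  have ha : bf M a a = 1 := tendsto_nhds_unique (tendsto_bf l1 l1)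
    (tendsto_const_nhds.congr fun n => (hg _).1.norm.symm)
  choose r hr using fun n => (hg n).1.exists_refl
  have ev : ∀ᶠ n in atTop, ∀ s, 0 < rho cs (r (φ n) * r (φ (n + 1))) (al s) s := by
    rw [eventually_all]
    intro s
    have t1 : Tendsto (fun n => al s - (2 * bf M (g (φ (n + 1))) (al s)) • g (φ (n + 1))) atTop
        (𝓝 (al s - (2 * bf M a (al s)) • a)) :=
      tendsto_const_nhds.sub (((tendsto_bf l2 tendsto_const_nhds).const_mul 2).smul l2)
    have t2 := t1.sub (((tendsto_bf (M := M) l1 t1).const_mul 2).smul l1)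
    have e : al s - (2 * bf M a (al s)) • a - (2 * bf M a (al s - (2 * bf M a (al s)) • a)) • a
        = al s := by
      rw [map_sub, map_smul, ha]; simp only [smul_eq_mul]; module
    rw [e] at t2
    have t3 := (tendsto_pi_nhds.1 t2 s).eventually_const_lt (by simp : (0 : ℝ) < al s s)
    filter_upwards [t3] with n hn
    rwa [rho_mul, hr, hr]
  have ev2 := (tendsto_bf l1 l2).eventually_const_lt (ha ▸ one_pos : 0 < bf M a a)
  obtain ⟨n, h1, h2⟩ := (ev.and ev2).exists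
  have h3 := eq_one_of_nonneg cs fun s => ((isRoot_al cs s).rho _).nonneg_of_coord (h1 s)
  have h4 : rho cs (r (φ n) * r (φ (n + 1))) (g (φ (n + 1))) = g (φ (n + 1)) := by
    rw [h3, rho_one]
  set u := g (φ n) with hu
  set v := g (φ (n + 1)) with hv
  have nu : bf M u u = 1 := (hg _).1.norm
  have nv : bf M v v = 1 := (hg _).1.norm
  rw [rho_mul, hr, hr, ← hu, ← hv, map_sub, map_smul, nv] at h4
  have h5 : v = bf M u v • u := by
    funext t
    have := congrFun h4 t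
    simp only [smul_eq_mul, Pi.sub_apply, Pi.smul_apply] at this ⊢
    linarith
  have h6 : bf M u v ^ 2 = 1 := by rw [← nv]; nth_rw 2 [h5]; nth_rw 3 [h5]; rw [bf_smul_self, nu, mul_one]
  have h7 : bf M u v = 1 := by nlinarith
  rw [h7, one_smul] at h5
  exact (hφ (Nat.lt_succ_self n)).ne (hinj h5).symm

theorem finite_WJ (Z : Set B)
    (h : ∀ v : B → ℝ, 0 ≤ v → v ≠ 0 → (∀ t, t ∉ Z → v t = 0) → 0 < bf M v v) :
    (WJ cs Z : Set W).Finite := by
  obtain ⟨R, hR⟩ : ∃ R : ℝ, ∀ v : B → ℝ, 0 ≤ v → (∀ t, t ∉ Z → v t = 0) → bf M v v = 1 →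
      ht v ≤ R := by
    by_cases hZ : ∃ v : B → ℝ, 0 ≤ v ∧ v ≠ 0 ∧ ∀ t, t ∉ Z → v t = 0
    · obtain ⟨v, a, b, c⟩ := hZ
      obtain ⟨k, h0, h1, h2, h3⟩ := pf_min (M := M) Z a b c
      have hk : 0 < bf M k k := h k h0 (by rintro rfl; simp [ht] at h1) h2
      refine ⟨1 + (bf M k k)⁻¹, fun u a c d => ?_⟩
      have b : u ≠ 0 := by rintro rfl; simp at d
      have h4 := h3 _ (smul_nonneg (inv_nonneg.2 (ht_nonneg a)) a) (ht_normalize a b)
        fun t ht => by simp [c t ht]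
      have h5 := ht_pos a b
      rw [bf_smul_self, d, mul_one, inv_pow, le_inv_comm₀ hk (by positivity)] at h4
      nlinarith [sq_nonneg (ht u - 1)]
    · refine ⟨0, fun u a c d => (hZ ⟨u, a, ?_, c⟩).elim⟩
      rintro rfl; simp at d
  refine Set.Finite.of_finite_image
    (f := fun (w : W) (s : Z) => rho cs w (al s)) ?_ ?_
  · refine (Set.Finite.pi' fun _ : Z => finite_roots cs R).subset ?_
    rintro _ ⟨w, hw, rfl⟩ s
    have hr := (isRoot_al cs s.1).rho w
    have hs : ∀ t, t ∉ Z → rho cs w (al s.1) t = 0 := fun t ht => by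
      rw [WJ_coord cs hw _ ht, al_ne fun h : t = s.1 => ht (h ▸ s.2)]
    refine ⟨hr, fun t => ?_⟩
    rcases hr.sign with h1 | h1
    · rw [abs_of_nonneg (h1 t)]
      exact (le_ht h1 t).trans (hR _ h1 hs hr.norm)
    · rw [abs_of_nonpos (h1 t)]
      exact (le_ht (neg_nonneg.2 h1) t).trans (hR _ (neg_nonneg.2 h1)
        (fun t ht => by simp [hs t ht]) hr.neg.norm)
  · intro a ha b hb hab
    have : b⁻¹ * a = 1 := WJ_eq_one cs (mul_mem (inv_mem hb) ha) fun s hs => by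
      have h1 : rho cs a (al s) = rho cs b (al s) := congrFun hab ⟨s, hs⟩
      rw [rho_mul, h1, rho_inv_self]; exact al_nonneg s
    exact (inv_mul_eq_one.1 this).symm

theorem exists_ascent {k : B → ℝ} (h0 : 0 ≤ k) (hk : Dom M k) (hne : k ≠ 0) (w : W) :
    ∃ s, k s ≠ 0 ∧ cs.length (w * cs.simple s) = cs.length w + 1 := by
  by_contra hc
  push Not at hc
  apply hne
  refine le_antisymm ((hk.le_rho cs w).trans ?_) h0
  rw [← sum_al k, map_sum]
  refine Finset.sum_nonpos fun s _ => ?_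
  rw [map_smul]
  by_cases hs : k s = 0
  · rw [hs, zero_smul]
  · refine smul_nonpos_of_nonneg_of_nonpos (h0 s) (rho_al_nonpos cs w s ?_)
    have h1 := hc s hs
    rcases cs.length_mul_simple w s with h | h <;> omega

theorem infinite_WJ {k : B → ℝ} (h0 : 0 ≤ k) (hk : Dom M k) (hne : k ≠ 0) :
    (WJ cs {s | k s ≠ 0} : Set W).Infinite := by
  intro hf
  obtain ⟨w, hw, hmax⟩ := Set.exists_max_image _ cs.length hf ⟨1, one_mem _⟩
  obtain ⟨s, hs, h⟩ := exists_ascent cs h0 hk hne w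
  have := hmax (w * cs.simple s) (mul_mem hw (simple_mem_WJ cs hs))
  omega

theorem exists_dom_of_infinite (Z : Set B) (h : (WJ cs Z : Set W).Infinite) :
    ∃ k : B → ℝ, 0 ≤ k ∧ Dom M k ∧ k ≠ 0 ∧ ∀ t, t ∉ Z → k t = 0 := by
  by_contra hc
  refine h (finite_WJ cs Z fun v a b c => ?_)
  by_contra hd
  exact hc (exists_dom Z a b c (not_lt.1 hd))

end Pool.Agent.Lib.MP_e21d7a_al.Cls
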