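import Pool.Agent.Lib.MP_e21d7a_al.Cls.Word
import Pool.Agent.Lib.MP_e21d7a_al.Proj

/-! Passage to the projective space. -/

set_option linter.unusedSectionVars false

namespace Pool.Agent.Lib.MP_e21d7a_al.Cls

open Filter Topology CoxeterSystem Pool.Agent.Lib.MP_e21d7a_al.Proj

universe u v

theorem accPt_of_subseq {X : Type*} [TopologicalSpace X] (a : ℕ → X) (ha : Function.Injective a)
    (φ : ℕ → ℕ) (hφ : Function.Injective φ) (x : X) (h : Tendsto (fun n => a (φ n)) atTop (𝓝 x)) :
    AccPt x (𝓟 (Set.range a)) := by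
  rw [accPt_iff_nhds]
  intro U hU
  obtain ⟨N, hN⟩ := eventually_atTop.1 (h.eventually hU)
  by_cases h1 : a (φ N) = x
  · refine ⟨a (φ (N + 1)), ⟨hN (N + 1) (Nat.le_succ _), ⟨_, rfl⟩⟩, fun h2 => ?_⟩
    exact absurd (hφ (ha (h1.trans h2.symm))) (by omega)
  · exact ⟨a (φ N), ⟨hN N le_rfl, ⟨_, rfl⟩⟩, h1⟩

variable {n : ℕ} {M : CoxeterMatrix (Fin n)} [Gram M] {W : Type u} [Group W]
  (cs : CoxeterSystem M W) {V : Type v} [AddCommGroup V] [Module ℝ V]
  (α : Module.Basis (Fin n) ℝ V) (B : LinearMap.BilinForm ℝ V)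

theorem coord_beta (hB : ∀ i j, B (α i) (α j) = cm M i j) (s : ℕ → Fin n) (k : ℕ) :
    α.equivFun (invRoot B α s k) = beta cs s k := by
  have key : ∀ (l : List (Fin n)) (v : V),
      α.equivFun (l.foldr (fun i v => Proj.refl B (α i) v) v) =
        rho cs (cs.wordProd l) (α.equivFun v) := by
    intro l v
    induction l with
    | nil => simp
    | cons i l ih =>
      rw [List.foldr_cons, coord_refl α B (cm M) hB, ih, wordProd_cons, rho_mul, rho_simple,
        bf_right_sum]
      simp only [bf_al_al, mul_comm (cm M i _)]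
      rfl
  have h2 : α.equivFun (α (s k)) = al (s k) := by
    funext j
    rw [α.equivFun_self, al_apply]
    simp only [eq_comm]
  rw [invRoot, key, h2]
  rfl

variable [TopologicalSpace V] [IsTopologicalAddGroup V] [ContinuousSMul ℝ V] [T2Space V]

theorem proj_setup (hB : ∀ i j, B (α i) (α j) = cm M i j) {s : ℕ → Fin n} (hs : Red cs s) :
    ∃ a : ℕ → Projectivization ℝ V, Function.Injective a ∧
      {q : Projectivization ℝ V | ∃ k : ℕ, q.submodule = Submodule.span ℝ {invRoot B α s k}} =
        Set.range a ∧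
      ∀ (φ : ℕ → ℕ) (x : Fin n → ℝ), Tendsto (fun m => nb cs s (φ m)) atTop (𝓝 x) →
        ∃ p : Projectivization ℝ V, p.submodule = Submodule.span ℝ {α.equivFun.symm x} ∧
          ht x = 1 ∧ Tendsto (fun m => a (φ m)) atTop (@nhds _ (projTop V) p) := by
  let := projTop V
  have hc := coord_beta cs α B hB s
  have hne : ∀ k, invRoot B α s k ≠ 0 := by
    intro k h
    have h1 := hs.ht_pos k
    rw [← hc, h, map_zero] at h1
    simp [ht] at h1
  refine ⟨fun k => Projectivization.mk ℝ (invRoot B α s k) (hne k), fun j k h => ?_, ?_, ?_⟩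
  · obtain ⟨t, ht⟩ := (Projectivization.mk_eq_mk_iff' ℝ _ _ (hne j) (hne k)).1 h
    have h1 := congrArg α.equivFun ht
    rw [map_smul, hc, hc] at h1
    have h2 := (isRoot_beta cs s j).norm
    rw [← h1, bf_smul_self, (isRoot_beta cs s k).norm, mul_one] at h2
    have h3 := hs.ht_pos j
    rw [← h1, ht_smul] at h3
    have h4 : 0 < t := (pos_iff_pos_of_mul_pos h3).2 (hs.ht_pos k)
    have h5 : t = 1 := by nlinarith
    rw [h5, one_smul] at h1
    exact (hs.beta_injective h1).symm
  · ext q
    constructor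
    · rintro ⟨k, hk⟩
      exact ⟨k, Projectivization.submodule_injective hk.symm⟩
    · rintro ⟨k, rfl⟩
      exact ⟨k, rfl⟩
  · intro φ x hx
    have hx1 : ht x = 1 := tendsto_nhds_unique ((continuous_ht.tendsto x).comp hx)
      (tendsto_const_nhds.congr fun m => (hs.nb_mem _).2.symm)
    let e := α.equivFunL
    have hx0 : e.symm x ≠ 0 := by
      intro h
      have : x = 0 := by simpa using congrArg e h
      rw [this] at hx1
      simp [ht] at hx1
    let y : ℕ → {v : V // v ≠ 0} := fun m => ⟨(ht (beta cs s (φ m)))⁻¹ • invRoot B α s (φ m),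
      smul_ne_zero (inv_ne_zero (hs.ht_pos _).ne') (hne _)⟩
    have hy : Tendsto y atTop (𝓝 ⟨e.symm x, hx0⟩) := by
      rw [tendsto_subtype_rng]
      refine ((e.symm.continuous.tendsto x).comp hx).congr fun m => ?_
      apply e.injective
      simp only [Function.comp_apply, ContinuousLinearEquiv.apply_symm_apply, y, map_smul, nb]
      exact congrArg _ (hc _).symm
    refine ⟨Projectivization.mk' ℝ ⟨e.symm x, hx0⟩, rfl, hx1, ?_⟩
    refine ((continuous_mk'.tendsto _).comp hy).congr fun m => ?_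
    exact (Projectivization.mk_eq_mk_iff' ℝ _ _ (y m).2 (hne _)).2 ⟨_, rfl⟩

theorem classify (hB : ∀ i j, B (α i) (α j) = cm M i j) :
    (∀ s : ℕ → Fin n, Red cs s → ∃! p : Projectivization ℝ V, @AccPt _ (projTop V) p
      (𝓟 {q | ∃ k : ℕ, q.submodule = Submodule.span ℝ {invRoot B α s k}})) ↔ Hyp cs := by
  let := projTop V
  have := t2_proj α
  constructor
  · intro h I J hIJ
    by_contra hc
    push Not at hc
    obtain ⟨s, hs, hI, hJ⟩ := exists_two hIJ hc.1 hc.2
    obtain ⟨a, ha, hset, hlim⟩ := proj_setup cs α B hB hs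
    obtain ⟨x, φ, -, hφ, hx⟩ := hs.exists_subseq fun k => 2 * k
    obtain ⟨y, ψ, -, hψ, hy⟩ := hs.exists_subseq fun k => 2 * k + 1
    obtain ⟨p, hp, x1, hp2⟩ := hlim _ x hx
    obtain ⟨q, hq, y1, hq2⟩ := hlim _ y hy
    have h1 := h s hs
    rw [hset] at h1
    have h2 : p = q := h1.unique
      (accPt_of_subseq a ha _ (fun i j h => hφ.injective (by simpa using h)) p hp2)
      (accPt_of_subseq a ha _ (fun i j h => hψ.injective (by simpa using h)) q hq2)
    have hx0 : ∀ t, t ∉ I → x t = 0 := fun t ht => tendsto_nhds_unique (tendsto_pi_nhds.1 hx t)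
      (tendsto_const_nhds.congr fun m => by simp [nb, hI _ t ht])
    have hy0 : ∀ t, t ∉ J → y t = 0 := fun t ht => tendsto_nhds_unique (tendsto_pi_nhds.1 hy t)
      (tendsto_const_nhds.congr fun m => by simp [nb, hJ _ t ht])
    have h3 : α.equivFun.symm x ∈ Submodule.span ℝ {α.equivFun.symm y} := by
      rw [← hq, ← h2, hp]; exact Submodule.mem_span_singleton_self _
    obtain ⟨c, hc⟩ := Submodule.mem_span_singleton.1 h3
    rw [← map_smul] at hc
    have h4 := α.equivFun.symm.injective hc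
    have h5 : x = 0 := by
      funext t
      by_cases ht : t ∈ I
      · have : t ∉ J := fun h => absurd (hIJ t ht t h) (by simp)
        rw [← h4]; simp [hy0 t this]
      · exact hx0 t ht
    rw [h5] at x1
    simp [ht] at x1
  · intro H s hs
    obtain ⟨a, ha, hset, hlim⟩ := proj_setup cs α B hB hs
    obtain ⟨x, hx⟩ := hs.nb_conv H
    obtain ⟨p, -, -, hp⟩ := hlim id x hx
    rw [hset]
    exact unique_accPt a p hp (Eventually.of_forall fun m h => absurd (ha h) (by omega))

end Pool.Agent.Lib.MP_e21d7a_al.Cls
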