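import Pool.Agent.Lib.MP_e21d7a_al.Cls.Cone

/-! Orthogonal vectors in the fundamental chamber of the imaginary cone. -/

set_option linter.unusedSectionVars false

namespace Pool.Agent.Lib.MP_e21d7a_al.Cls

open Filter Topology CoxeterSystem

variable {B W : Type*} [Group W] [Fintype B] [DecidableEq B] {M : CoxeterMatrix B} [Gram M]
  (cs : CoxeterSystem M W)

variable {cs}

theorem Dom.perp_of_supp {k v : B → ℝ} (hk : Dom M k) (hv : 0 ≤ v) (h : bf M k v = 0) {s : B}
    (hs : v s ≠ 0) : bf M k (al s) = 0 := by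
  by_contra hc
  exact hs (hk.coord_eq_zero hv h hc)

theorem supp_of_orth (H : Hyp cs) {k k' : B → ℝ} (h0 : 0 ≤ k) (hk : Dom M k) (h0' : 0 ≤ k')
    (hk' : Dom M k') (hne' : k' ≠ 0) (h : bf M k k' = 0) {s : B} (hs : k s ≠ 0) :
    k' s ≠ 0 ∧ bf M k (al s) = 0 := by
  suffices h1 : k' s ≠ 0 from ⟨h1, hk.perp_of_supp h0' h h1⟩
  intro hs'
  let k₁ : B → ℝ := fun t => if k' t = 0 then k t else 0
  have p0 : 0 ≤ k₁ := fun t => by
    simp only [k₁]; split_ifs
    · exact h0 t
    · exact le_rfl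
  have orth : ∀ i, k₁ i ≠ 0 → ∀ j, k' j ≠ 0 → cm M i j = 0 := by
    intro i hi j hj
    have hi1 : k' i = 0 := by
      by_contra hc
      exact hi (if_neg hc)
    have hi2 : k i ≠ 0 := by simpa only [k₁, if_pos hi1] using hi
    have h2 := hk'.perp_of_supp h0 ((bf_symm k' k).trans h) hi2
    rw [bf_symm, bf_right_sum, Finset.sum_eq_zero_iff_of_nonpos] at h2
    · have := h2 j (Finset.mem_univ j)
      rw [bf_al_al] at this
      exact (mul_eq_zero.1 this).resolve_left hj
    · intro t _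
      by_cases ht : t = i
      · rw [ht, hi1, zero_mul]
      · rw [bf_al_al]; exact mul_nonpos_of_nonneg_of_nonpos (h0' t) (cm_nonpos (Ne.symm ht))
  have pd : Dom M k₁ := by
    intro i
    by_cases hi : k₁ i = 0
    · exact bf_al_nonpos p0 hi
    refine le_of_eq_of_le ?_ (hk i)
    rw [bf_symm, bf_right_sum, bf_symm k, bf_right_sum]
    refine Finset.sum_congr rfl fun t _ => ?_
    by_cases ht : k' t = 0
    · simp only [k₁, if_pos ht]
    · rw [bf_al_al, orth i hi t ht, mul_zero, mul_zero]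
  have pn : k₁ ≠ 0 := fun h => hs (by simpa only [k₁, if_pos hs', Pi.zero_apply] using congrFun h s)
  rcases H {t | k₁ t ≠ 0} {t | k' t ≠ 0} (fun i hi j hj => cm_eq_zero_iff.1 (orth i hi j hj))
    with h1 | h1
  · exact infinite_WJ cs p0 pd pn h1
  · exact infinite_WJ cs h0' hk' hne' h1

theorem smul_of_orth (H : Hyp cs) {k k' : B → ℝ} (h0 : 0 ≤ k) (hk : Dom M k) (h0' : 0 ≤ k')
    (hk' : Dom M k') (hne' : k' ≠ 0) (h : bf M k k' = 0) : ∃ t : ℝ, 0 ≤ t ∧ k = t • k' := by
  by_cases hne : k = 0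
  · exact ⟨0, le_rfl, by simp [hne]⟩
  have h' : bf M k' k = 0 := (bf_symm k' k).trans h
  obtain ⟨s, hs, hmin⟩ := Finset.exists_min_image (Finset.univ.filter fun s => k' s ≠ 0)
    (fun s => k s / k' s) (by
      obtain ⟨s, hs⟩ := Function.ne_iff.1 hne'
      exact ⟨s, by simpa using hs⟩)
  have hs : k' s ≠ 0 := by simpa using hs
  set t := k s / k' s with ht
  have p0 : 0 ≤ k - t • k' := by
    intro r
    simp only [Pi.zero_apply, Pi.sub_apply, Pi.smul_apply, smul_eq_mul, sub_nonneg]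
    by_cases hr : k' r = 0
    · rw [hr, mul_zero]; exact h0 r
    · exact (le_div_iff₀ (lt_of_le_of_ne (h0' r) (Ne.symm hr))).1 (hmin r (by simpa using hr))
  have iso : bf M k' k' = 0 := by
    rw [bf_right_sum]
    refine Finset.sum_eq_zero fun r _ => ?_
    by_cases hr : k' r = 0
    · rw [hr, zero_mul]
    · rw [(supp_of_orth H h0' hk' h0 hk hne h' hr).2, mul_zero]
  have pd : Dom M (k - t • k') := by
    intro r
    by_cases hr : k' r = 0
    · refine bf_al_nonpos p0 ?_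
      have : k r = 0 := by
        by_contra hc
        exact (supp_of_orth H h0 hk h0' hk' hne' h hc).1 hr
      simp [hr, this]
    · simp only [map_sub, map_smul, LinearMap.sub_apply, LinearMap.smul_apply, smul_eq_mul]
      rw [hk.perp_of_supp h0' h hr, (supp_of_orth H h0' hk' h0 hk hne h' hr).2]; simp
  refine ⟨t, div_nonneg (h0 s) (h0' s), ?_⟩
  by_contra hc
  refine (supp_of_orth H h0' hk' p0 pd (sub_ne_zero.2 hc) ?_ hs).1 ?_
  · rw [map_sub, map_smul, h', iso]; simp
  · simp only [Pi.sub_apply, Pi.smul_apply, smul_eq_mul]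
    rw [ht, div_mul_cancel₀ _ hs, sub_self]

theorem smul_of_iso (H : Hyp cs) {k v : B → ℝ} (h0 : 0 ≤ k) (hk : Dom M k) (hne : k ≠ 0)
    (hv : 0 ≤ v) (hle : bf M v v ≤ 0) (h : bf M k v = 0) : ∃ t : ℝ, 0 ≤ t ∧ v = t • k := by
  by_cases hvne : v = 0
  · exact ⟨0, le_rfl, by simp [hvne]⟩
  have hZ : ∀ t, t ∉ {s | bf M k (al s) = 0} → v t = 0 := fun t ht => hk.coord_eq_zero hv h ht
  obtain ⟨m, m0, m1, m2, m3⟩ := pf_min (M := M) _ hv hvne hZ
  set u := (ht v)⁻¹ • v with hu
  have u0 : 0 ≤ u := smul_nonneg (inv_nonneg.2 (ht_nonneg hv)) hv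
  have u1 : ht u = 1 := ht_normalize hv hvne
  have u2 : ∀ t, t ∉ {s | bf M k (al s) = 0} → u t = 0 := fun t ht => by simp [hu, hZ t ht]
  have u3 : bf M u u ≤ 0 := by
    rw [hu, bf_smul_self]; exact mul_nonpos_of_nonneg_of_nonpos (sq_nonneg _) hle
  have md : Dom M m := dom_of_min m0 m1 ((m3 u u0 u1 u2).trans u3)
    fun w a b c => m3 w a b fun t ht => c t (m2 t ht)
  have mk : bf M k m = 0 := by
    rw [bf_right_sum]
    refine Finset.sum_eq_zero fun r _ => ?_
    by_cases hr : bf M k (al r) = 0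
    · rw [hr, mul_zero]
    · rw [m2 r hr, zero_mul]
  have mm : bf M m m = 0 := by
    rw [bf_right_sum]
    refine Finset.sum_eq_zero fun r _ => ?_
    by_cases hr : m r = 0
    · rw [hr, zero_mul]
    · rw [(supp_of_orth H m0 md h0 hk hne ((bf_symm m k).trans mk) hr).2, mul_zero]
  have ud : Dom M u := dom_of_min u0 u1 u3 fun w a b c =>
    (u3.trans mm.ge).trans (m3 w a b fun t ht => c t (u2 t ht))
  have e : v = ht v • u := by rw [hu, smul_smul, mul_inv_cancel₀ (ht_pos hv hvne).ne', one_smul]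
  exact smul_of_orth H hv (e ▸ ud.smul (ht_nonneg hv)) h0 hk hne ((bf_symm v k).trans h)

theorem finite_stab (H : Hyp cs) {k : B → ℝ} (h0 : 0 ≤ k) (hk : Dom M k) (hneg : bf M k k < 0) :
    (WJ cs {s | bf M k (al s) = 0} : Set W).Finite := by
  refine finite_WJ cs _ fun v a b c => ?_
  by_contra hd
  have h1 : bf M k v = 0 := by
    rw [bf_right_sum]
    refine Finset.sum_eq_zero fun r _ => ?_
    by_cases hr : bf M k (al r) = 0
    · rw [hr, mul_zero]
    · rw [c r hr, zero_mul]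
  obtain ⟨t, -, ht⟩ := smul_of_iso H h0 hk (by rintro rfl; simp at hneg) a (not_lt.1 hd) h1
  rw [ht, map_smul, smul_eq_mul] at h1
  rcases mul_eq_zero.1 h1 with h2 | h2
  · exact b (by rw [ht, h2, zero_smul])
  · exact hneg.ne h2

end Pool.Agent.Lib.MP_e21d7a_al.Cls
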