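import Pool.Agent.Lib.MP_e21d7a_al.Cls.Iso

/-! Local finiteness and properness of the action on the negative part of the invariant cone. -/

set_option linter.unusedSectionVars false

namespace Pool.Agent.Lib.MP_e21d7a_al.Cls

open Filter Topology CoxeterSystem

variable {B W : Type*} [Group W] [Fintype B] [DecidableEq B] {M : CoxeterMatrix B} [Gram M]
  (cs : CoxeterSystem M W)

variable {cs}

theorem local_dom (H : Hyp cs) {k : B → ℝ} (h0 : 0 ≤ k) (hk : Dom M k) (hneg : bf M k k < 0) :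
    ∃ F : Set W, F.Finite ∧ ∀ᶠ r in 𝓝 k, (∃ u ∈ F, Dom M (rho cs u r)) ∧
      (∀ w, Dom M (rho cs w r) → w ∈ F) ∧ ∀ w t, -1 ≤ rho cs w r t := by
  have hF := finite_stab H h0 hk hneg
  set Z := {s | bf M k (al s) = 0} with hZ
  refine ⟨_, hF, ?_⟩
  have ev : ∀ᶠ r in 𝓝 k, ∀ u ∈ (WJ cs Z : Set W), ∀ s,
      -1 ≤ rho cs u r s ∧ (s ∉ Z → bf M (rho cs u r) (al s) < 0) := by
    rw [eventually_all_finite hF]
    intro u hu
    have h1 : Tendsto (rho cs u) (𝓝 k) (𝓝 k) := by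
      have := (continuous_rho cs u).tendsto k
      rwa [(mem_Stab cs).1 (WJ_le_Stab cs (z := k) (fun s hs => hs) hu)] at this
    rw [eventually_all]
    intro s
    refine Eventually.and ((tendsto_pi_nhds.1 h1 s).eventually_const_le ?_) ?_
    · exact lt_of_lt_of_le (by norm_num) (h0 s)
    · by_cases hs : s ∈ Z
      · exact Eventually.of_forall fun r h => absurd hs h
      · exact ((tendsto_bf h1 tendsto_const_nhds).eventually_lt_const
          (lt_of_le_of_ne (hk s) hs)).mono fun r h _ => h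
  filter_upwards [ev] with r hr
  obtain ⟨u, hu, hmin⟩ := Set.exists_min_image _ (fun u => ht (rho cs u r)) hF ⟨1, one_mem _⟩
  have hd : Dom M (rho cs u r) := by
    intro s
    by_cases hs : s ∈ Z
    · have := hmin (cs.simple s * u) (mul_mem (simple_mem_WJ cs hs) hu)
      rw [rho_mul, ht_simple] at this
      linarith
    · exact ((hr u hu s).2 hs).le
  have e : ∀ w, rho cs w r = rho cs (w * u⁻¹) (rho cs u r) := fun w => by
    rw [rho_mul, rho_inv_self]
  refine ⟨⟨u, hu, hd⟩, fun w hw => ?_, fun w t => ?_⟩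
  · have h1 := mem_WJ_of_dom cs hd (e w ▸ hw)
    have h2 : WJ cs {s | bf M (rho cs u r) (al s) = 0} ≤ WJ cs Z := WJ_le cs fun s hs =>
      simple_mem_WJ cs (by by_contra hc; exact ((hr u hu s).2 hc).ne hs)
    simpa using mul_mem (h2 h1) hu
  · rw [e]
    exact (hr u hu t).1.trans (hd.le_rho cs _ t)

theorem InY.exists_lim {a : B → ℝ} (ha : InY cs a) :
    ∃ (k : B → ℝ) (w : ℕ → W), 0 ≤ k ∧ Dom M k ∧ bf M k k = bf M a a ∧
      Tendsto (fun n => Cls.rho cs (w n) a) atTop (𝓝 k) := by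
  let O : Set (B → ℝ) := closure (Set.range fun w => Cls.rho cs w a)
  have hO0 : ∀ v ∈ O, 0 ≤ v := fun v hv =>
    closure_minimal (by rintro _ ⟨w, rfl⟩; exact ha w) isClosed_Ici hv
  have hK : IsCompact ({v : B → ℝ | 0 ≤ v ∧ ht v ≤ ht a} ∩ O) :=
    (isCompact_ht _).inter_right isClosed_closure
  obtain ⟨k, hk, hmin⟩ := hK.exists_isMinOn
    ⟨a, ⟨ha.nonneg, le_rfl⟩, subset_closure ⟨1, by simp⟩⟩ continuous_ht.continuousOn
  obtain ⟨x, hx, hl⟩ := mem_closure_iff_seq_limit.1 hk.2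
  choose w hw using hx
  have hl' : Tendsto (fun n => Cls.rho cs (w n) a) atTop (𝓝 k) := hl.congr fun n => (hw n).symm
  refine ⟨k, w, hk.1.1, fun s => ?_, tendsto_nhds_unique (tendsto_bf hl' hl')
    (tendsto_const_nhds.congr fun n => (bf_rho cs _ _ _).symm), hl'⟩
  by_contra hc
  have h1 : Cls.rho cs (cs.simple s) k ∈ O :=
    mem_closure_of_tendsto (((continuous_rho cs _).tendsto k).comp hl')
      (Eventually.of_forall fun n => ⟨cs.simple s * w n, rho_mul cs _ _ _⟩)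
  have h2 := ht_simple cs s k
  have h3 : ht k ≤ ht (Cls.rho cs (cs.simple s) k) :=
    hmin ⟨⟨hO0 _ h1, by linarith [hk.1.2]⟩, h1⟩
  linarith

theorem InY.bf_self_nonpos {a : B → ℝ} (ha : InY cs a) : bf M a a ≤ 0 := by
  obtain ⟨k, -, h0, hk, e, -⟩ := ha.exists_lim
  rw [← e]; exact hk.bf_nonpos h0

theorem InY.exists_dom (H : Hyp cs) {a : B → ℝ} (ha : InY cs a) (hneg : bf M a a < 0) :
    ∃ w, Dom M (Cls.rho cs w a) := by
  obtain ⟨k, w, h0, hk, e, hl⟩ := ha.exists_lim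
  obtain ⟨F, -, hF⟩ := local_dom H h0 hk (e ▸ hneg)
  obtain ⟨n, ⟨u, -, hu⟩, -⟩ := (hl.eventually hF).exists
  exact ⟨u * w n, by rwa [rho_mul]⟩

theorem local_Y (H : Hyp cs) {a : B → ℝ} (ha : InY cs a) (hneg : bf M a a < 0) :
    ∃ F : Set W, F.Finite ∧ ∀ᶠ r in 𝓝 a, (∃ u ∈ F, Dom M (rho cs u r)) ∧
      (∀ w, Dom M (rho cs w r) → w ∈ F) ∧ ∀ w t, -1 ≤ rho cs w r t := by
  obtain ⟨h, hh⟩ := ha.exists_dom H hneg
  obtain ⟨F, hF, ev⟩ := local_dom H (ha h) hh (by rwa [bf_rho])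
  refine ⟨(· * h) '' F, hF.image _, ?_⟩
  have e : ∀ w r, rho cs w r = rho cs (w * h⁻¹) (rho cs h r) := fun w r => by
    rw [rho_mul, rho_inv_self]
  filter_upwards [((continuous_rho cs h).tendsto a).eventually ev] with r hr
  obtain ⟨⟨u, hu, hu2⟩, h2, h3⟩ := hr
  refine ⟨⟨u * h, ⟨u, hu, rfl⟩, by rwa [rho_mul]⟩, fun w hw => ⟨w * h⁻¹, h2 _ (e w r ▸ hw), by simp⟩,
    fun w t => ?_⟩
  rw [e]; exact h3 _ t

theorem proper (H : Hyp cs) {a : B → ℝ} (ha : InY cs a) (hneg : bf M a a < 0) (C : ℝ) :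
    {w : W | ht (rho cs w a) ≤ C}.Finite := by
  by_contra hc
  let g : ℕ → W := fun n => (Set.Infinite.natEmbedding _ hc n).1
  have hg : ∀ n, ht (rho cs (g n) a) ≤ C := fun n => (Set.Infinite.natEmbedding _ hc n).2
  have hinj : Function.Injective g :=
    Subtype.val_injective.comp (Set.Infinite.natEmbedding _ hc).injective
  obtain ⟨b, -, φ, hφ, hl⟩ := (isCompact_ht (B := B) C).tendsto_subseq
    (x := fun n => rho cs (g n) a) fun n => ⟨ha _, hg n⟩
  have hb : InY cs b := isClosed_InY.mem_of_tendsto hl (Eventually.of_forall fun n => ha.rho _)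
  have hb2 : bf M b b = bf M a a := tendsto_nhds_unique (tendsto_bf hl hl)
    (tendsto_const_nhds.congr fun n => (bf_rho cs _ _ _).symm)
  obtain ⟨F, hF, ev⟩ := local_Y H hb (hb2 ▸ hneg)
  obtain ⟨F', hF', ev'⟩ := local_Y H ha hneg
  have h1 := (hinj.comp hφ.injective).tendsto_cofinite.eventually
    (hF.image2 (fun u v => u⁻¹ * v) hF').eventually_cofinite_notMem
  rw [Nat.cofinite_eq_atTop] at h1
  obtain ⟨n, ⟨⟨u, hu, hu2⟩, -⟩, h3⟩ := ((hl.eventually ev).and h1).exists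
  exact h3 ⟨u, hu, u * g (φ n), ev'.self_of_nhds.2.1 _ (by rwa [rho_mul]), by simp⟩

end Pool.Agent.Lib.MP_e21d7a_al.Cls
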