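import Pool.Agent.Lib.MP_e21d7a_al.Cls.Local

/-! The invariant cone contains no totally isotropic segment. -/

set_option linter.unusedSectionVars false

namespace Pool.Agent.Lib.MP_e21d7a_al.Cls

open Filter Topology CoxeterSystem

variable {B W : Type*} [Group W] [Fintype B] [DecidableEq B] {M : CoxeterMatrix B} [Gram M]
  (cs : CoxeterSystem M W)

variable {cs}

theorem bf_expand (a b : ℝ) (x z : B → ℝ) :
    bf M (a • x + b • z) (a • x + b • z) =
      a ^ 2 * bf M x x + 2 * a * b * bf M x z + b ^ 2 * bf M z z := by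
  simp only [map_add, map_smul, LinearMap.add_apply, LinearMap.smul_apply, smul_eq_mul]
  rw [bf_symm z x]; ring

theorem not_eventually_mem {w : ℕ → W} (hw : Function.Injective w) {F : Set W} (hF : F.Finite)
    (h : ∀ᶠ n in atTop, w n ∈ F) : False := by
  have h1 := hw.tendsto_cofinite.eventually hF.eventually_cofinite_notMem
  rw [Nat.cofinite_eq_atTop] at h1
  obtain ⟨n, h2, h3⟩ := (h.and h1).exists
  exact h3 h2

theorem cross_step {x z : B → ℝ} {e : ℝ} (he : 0 < e) (hd : Dom M (e • x + z)) (hz : ¬ Dom M z) :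
    ∃ (s : B) (e' : ℝ), 0 < e' ∧ e' ≤ e ∧ Dom M (e' • x + z) ∧ bf M (e' • x + z) (al s) = 0 ∧
      0 < bf M z (al s) := by
  have ex : ∀ (c : ℝ) (s : B), bf M (c • x + z) (al s) = c * bf M x (al s) + bf M z (al s) := by
    intro c s
    simp only [map_add, map_smul, LinearMap.add_apply, LinearMap.smul_apply, smul_eq_mul]
  have hneg : ∀ s, 0 < bf M z (al s) → bf M x (al s) < 0 := by
    intro s hs
    have := hd s
    rw [ex] at this
    by_contra hc
    push Not at hc
    nlinarith [mul_nonneg he.le hc]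
  obtain ⟨s, hs, hmax⟩ := Finset.exists_max_image
    (Finset.univ.filter fun s => 0 < bf M z (al s))
    (fun s => bf M z (al s) / (-bf M x (al s))) (by
      simp only [Dom, not_forall, not_le] at hz
      obtain ⟨s, hs⟩ := hz
      exact ⟨s, by simpa using hs⟩)
  have hs : 0 < bf M z (al s) := by simpa using hs
  have hx := hneg s hs
  set e' := bf M z (al s) / (-bf M x (al s)) with he'
  have h1 : 0 < e' := div_pos hs (by linarith)
  have h2 : e' ≤ e := by
    have := hd s
    rw [ex] at this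
    rw [he', div_le_iff₀ (by linarith)]; linarith
  refine ⟨s, e', h1, h2, fun t => ?_, ?_, hs⟩
  · rw [ex]
    by_cases ht : 0 < bf M z (al t)
    · have h3 := hmax t (by simpa using ht)
      rw [div_le_iff₀ (by linarith [hneg t ht])] at h3
      linarith
    · push Not at ht
      have h3 := hd t
      rw [ex] at h3
      by_cases h4 : bf M x (al t) ≤ 0
      · nlinarith [mul_nonneg h1.le (neg_nonneg.2 h4)]
      · push Not at h4
        nlinarith [mul_le_mul_of_nonneg_right h2 h4.le]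
  · rw [ex, he', div_mul_eq_mul_div, div_add' _ _ _ (by linarith), div_eq_zero_iff]
    left; ring

theorem walk {x z : B → ℝ} {w₀ : W} (h0 : Dom M (rho cs w₀ ((1 : ℝ) • x + z)))
    (hz : ∀ w, ¬ Dom M (rho cs w z)) :
    ∃ (w : ℕ → W) (e : ℕ → ℝ) (s : ℕ → B), e 0 = 1 ∧ ∀ n, 0 < e n ∧ e (n + 1) ≤ e n ∧
      w (n + 1) = cs.simple (s n) * w n ∧ Dom M (rho cs (w n) (e n • x + z)) ∧
      rho cs (w (n + 1)) (e (n + 1) • x + z) = rho cs (w n) (e (n + 1) • x + z) ∧
      bf M (rho cs (w (n + 1)) (e (n + 1) • x + z)) (al (s n)) = 0 ∧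
      0 < bf M (rho cs (w n) z) (al (s n)) := by
  let St := {p : W × ℝ // 0 < p.2 ∧ Dom M (rho cs p.1 (p.2 • x + z))}
  have key : ∀ p : St, ∃ (s : B) (q : St), q.1.2 ≤ p.1.2 ∧ q.1.1 = cs.simple s * p.1.1 ∧
      rho cs q.1.1 (q.1.2 • x + z) = rho cs p.1.1 (q.1.2 • x + z) ∧
      bf M (rho cs q.1.1 (q.1.2 • x + z)) (al s) = 0 ∧ 0 < bf M (rho cs p.1.1 z) (al s) := by
    rintro ⟨⟨w, e⟩, he, hd⟩
    simp only at he hd
    rw [map_add, map_smul] at hd
    obtain ⟨s, e', h1, h2, h3, h4, h5⟩ := cross_step he hd (hz w)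
    rw [← map_smul, ← map_add] at h3 h4
    have h6 : rho cs (cs.simple s * w) (e' • x + z) = rho cs w (e' • x + z) := by
      rw [rho_mul, rho_simple, bf_symm, h4]; simp
    exact ⟨s, ⟨(cs.simple s * w, e'), h1, by simpa only [h6] using h3⟩, h2, rfl, h6,
      by simpa only [h6] using h4, h5⟩
  choose f g h1 h2 h3 h4 h5 using key
  let p : ℕ → St := fun n => g^[n] ⟨(w₀, 1), one_pos, h0⟩
  have hp : ∀ n, p (n + 1) = g (p n) := fun n => Function.iterate_succ_apply' g n _
  refine ⟨fun n => (p n).1.1, fun n => (p n).1.2, fun n => f (p n), rfl, fun n => ?_⟩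
  simp only [hp]
  exact ⟨(p n).2.1, h1 _, h2 _, (p n).2.2, h3 _, h4 _, h5 _⟩

theorem good_case (H : Hyp cs) {x y y' : B → ℝ} (hx : InY cs x) (hy : InY cs y) (hy' : InY cs y')
    (hxx : bf M x x ≤ 0) (hxy : bf M x y < 0) (hyy : bf M y y = 0) {C : ℝ} (hC : 0 < C)
    (w : ℕ → W) (e : ℕ → ℝ) (he : ∀ n, 0 < e n) (he0 : Tendsto e atTop (𝓝 0))
    (hb : ∀ n, ht (rho cs (w n) (e n • x + (y + y'))) ^ 2 ≤ C * e n) :
    ∃ η : ℝ, 0 < η ∧ InY cs (y - η • y') := by
  let l : ℕ → ℝ := fun n => √(C * e n)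
  have hl : ∀ n, 0 < l n := fun n => Real.sqrt_pos.2 (mul_pos hC (he n))
  have hl2 : ∀ n, l n ^ 2 = C * e n := fun n => Real.sq_sqrt (mul_pos hC (he n)).le
  have hl0 : Tendsto l atTop (𝓝 0) := by
    have := (he0.const_mul C).sqrt
    simpa using this
  let a : ℕ → B → ℝ := fun n => (l n)⁻¹ • rho cs (w n) (e n • x + y)
  let f : ℕ → B → ℝ := fun n => (l n)⁻¹ • rho cs (w n) y'
  have haY : ∀ n, InY cs (a n) := fun n =>
    (((hx.smul (he n).le).add hy).rho _).smul (inv_nonneg.2 (hl n).le)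
  have hf0 : ∀ n, 0 ≤ f n := fun n => smul_nonneg (inv_nonneg.2 (hl n).le) (hy' _)
  have hsum : ∀ n, ht (a n) + ht (f n) ≤ 1 := by
    intro n
    have h1 : ht (rho cs (w n) (e n • x + (y + y'))) ≤ l n :=
      Real.le_sqrt_of_sq_le (hb n)
    rw [← ht_add, ← smul_add, ← map_add, ht_smul, add_assoc, inv_mul_le_iff₀ (hl n), mul_one]
    exact h1
  have hneg : ∀ n, bf M (a n) (a n) ≤ 2 * bf M x y / C := by
    intro n
    have h1 := bf_expand (M := M) (e n) 1 x y
    rw [one_smul, hyy] at h1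
    simp only [a, map_smul, LinearMap.smul_apply, smul_eq_mul]
    rw [bf_rho, h1, ← mul_assoc, ← mul_inv, ← pow_two, hl2, inv_mul_le_iff₀ (mul_pos hC (he n))]
    have h2 : C * e n * (2 * bf M x y / C) = 2 * e n * bf M x y := by field_simp
    rw [h2]
    nlinarith [mul_nonneg (sq_nonneg (e n)) (neg_nonneg.2 hxx)]
  obtain ⟨a', -, φ, hφ, hlim⟩ := (isCompact_ht (B := B) 1).tendsto_subseq (x := a)
    fun n => ⟨(haY n).nonneg, by linarith [hsum n, ht_nonneg (hf0 n)]⟩
  have ha' : InY cs a' := isClosed_InY.mem_of_tendsto hlim (Eventually.of_forall fun n => haY _)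
  have ha'' : bf M a' a' < 0 :=
    (le_of_tendsto' (tendsto_bf hlim hlim) fun n => hneg _).trans_lt
      (div_neg_of_neg_of_pos (by linarith) hC)
  obtain ⟨F, -, hF⟩ := local_Y H ha' ha''
  obtain ⟨r, hr, hball⟩ := Metric.eventually_nhds_iff.1 hF
  refine ⟨r / 2, by linarith, fun u t => ?_⟩
  have ev : ∀ᶠ n in atTop, -l (φ n) ≤ e (φ n) * rho cs u x t + rho cs u (y - (r / 2) • y') t := by
    filter_upwards [Metric.tendsto_nhds.1 hlim (r / 2) (by linarith)] with n hn
    set m := φ n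
    have h1 : ‖f m‖ ≤ 1 := by
      refine (pi_norm_le_iff_of_nonneg zero_le_one).2 fun t => ?_
      rw [Real.norm_of_nonneg (hf0 m t)]
      linarith [le_ht (hf0 m) t, hsum m, ht_nonneg (haY m).nonneg]
    have h2 : dist (a m - (r / 2) • f m) a' < r := by
      have h3 : dist (a m - (r / 2) • f m) (a m) ≤ r / 2 := by
        rw [dist_eq_norm, sub_sub_cancel_left, norm_neg, norm_smul,
          Real.norm_of_nonneg (by linarith)]
        nlinarith
      have h4 : dist (a m) a' < r / 2 := hn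
      linarith [dist_triangle (a m - (r / 2) • f m) (a m) a']
    have h3 := (hball h2).2.2 (u * (w m)⁻¹) t
    have h4 : a m - (r / 2) • f m = (l m)⁻¹ • rho cs (w m) (e m • x + (y - (r / 2) • y')) := by
      simp only [a, f, map_add, map_sub, map_smul]
      module
    rw [h4, map_smul, rho_mul, rho_inv_self, map_add, map_smul, Pi.smul_apply, smul_eq_mul,
      le_inv_mul_iff₀ (hl m)] at h3
    simpa using h3
  have t1 : Tendsto (fun n => -l (φ n)) atTop (𝓝 (-0)) := (hl0.comp hφ.tendsto_atTop).neg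
  have t2 : Tendsto (fun n => e (φ n) * rho cs u x t + rho cs u (y - (r / 2) • y') t) atTop
      (𝓝 (0 * rho cs u x t + rho cs u (y - (r / 2) • y') t)) :=
    ((he0.comp hφ.tendsto_atTop).mul_const _).add_const _
  simpa using le_of_tendsto_of_tendsto t1 t2 ev

theorem frequently_leave {P : ℕ → Prop} (h1 : ∃ᶠ n in atTop, P n) (h2 : ∃ᶠ n in atTop, ¬ P n) :
    ∃ᶠ n in atTop, P n ∧ ¬ P (n + 1) := by
  rw [frequently_atTop] at h1 h2 ⊢
  intro N
  obtain ⟨a, ha, hPa⟩ := h1 N
  obtain ⟨b, hb, hPb⟩ := h2 a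
  by_contra hc
  push Not at hc
  have key : ∀ b, a ≤ b → P b := fun b hb => by
    induction b, hb using Nat.le_induction with
    | base => exact hPa
    | succ b hb ih => exact hc b (ha.trans hb) ih
  exact hPb (key b hb)

/-- A sequence in the normalised chamber whose consecutive sums become isotropic finally stays
near one isotropic point. -/
theorem stay_near (H : Hyp cs) (q : ℕ → B → ℝ) (h0 : ∀ n, 0 ≤ q n) (h1 : ∀ n, ht (q n) = 1)
    (hd : ∀ n, Dom M (q n))
    (hlim : Tendsto (fun n => bf M (q n + q (n + 1)) (q n + q (n + 1))) atTop (𝓝 0)) :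
    ∃ d : B → ℝ, 0 ≤ d ∧ Dom M d ∧ d ≠ 0 ∧ bf M d d = 0 ∧
      ∀ᶠ n in atTop, ∀ s, bf M (q n) (al s) = 0 → bf M d (al s) = 0 := by
  let K : Set (B → ℝ) := {v | 0 ≤ v ∧ ht v ≤ 1} ∩ ({v | ht v = 1} ∩ {v | Dom M v})
  have hK : IsCompact K := (isCompact_ht 1).inter_right
    ((isClosed_eq continuous_ht continuous_const).inter isClosed_Dom)
  have hq : ∀ n, q n ∈ K := fun n => ⟨⟨h0 n, (h1 n).le⟩, h1 n, hd n⟩
  have hne : ∀ v ∈ K, v ≠ 0 := by
    rintro v hv rfl
    have := hv.2.1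
    simp [ht] at this
  have heq : ∀ a ∈ K, ∀ b ∈ K, bf M a b = 0 → a = b := by
    intro a ha b hb h
    obtain ⟨t, -, ht⟩ := smul_of_orth H ha.1.1 ha.2.2 hb.1.1 hb.2.2 (hne b hb) h
    have h2 : Cls.ht a = 1 := ha.2.1
    have h3 : Cls.ht b = 1 := hb.2.1
    rw [ht, ht_smul, h3, mul_one] at h2
    rw [ht, h2, one_smul]
  have pair : ∀ ψ : ℕ → ℕ, Tendsto ψ atTop atTop → ∃ a ∈ K, bf M a a = 0 ∧ ∃ φ : ℕ → ℕ,
      StrictMono φ ∧ Tendsto (fun n => q (ψ (φ n))) atTop (𝓝 a) ∧
        Tendsto (fun n => q (ψ (φ n) + 1)) atTop (𝓝 a) := by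
    intro ψ hψ
    obtain ⟨⟨a, b⟩, ⟨ha, hb⟩, φ, hφ, hl⟩ := (hK.prod hK).tendsto_subseq
      (x := fun n => (q (ψ n), q (ψ n + 1))) fun n => ⟨hq _, hq _⟩
    have l1 : Tendsto (fun n => q (ψ (φ n))) atTop (𝓝 a) := (continuous_fst.tendsto _).comp hl
    have l2 : Tendsto (fun n => q (ψ (φ n) + 1)) atTop (𝓝 b) := (continuous_snd.tendsto _).comp hl
    have e : bf M (a + b) (a + b) = 0 :=
      tendsto_nhds_unique (tendsto_bf (l1.add l2) (l1.add l2))
        (hlim.comp (hψ.comp hφ.tendsto_atTop))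
    have e2 := bf_expand (M := M) 1 1 a b
    rw [one_smul, one_smul, e] at e2
    have p1 : bf M a a ≤ 0 := ha.2.2.bf_nonpos ha.1.1
    have p2 : bf M a b ≤ 0 := ha.2.2.bf_nonpos hb.1.1
    have p3 : bf M b b ≤ 0 := hb.2.2.bf_nonpos hb.1.1
    have e3 : a = b := heq a ha b hb (by linarith)
    exact ⟨a, ha, by linarith, φ, hφ, l1, e3 ▸ l2⟩
  obtain ⟨d, hdK, hdd, φ, hφ, hl, -⟩ := pair id tendsto_id
  let N : Set (B → ℝ) := {v | ∀ s, d s / 2 ≤ v s ∧
    (bf M d (al s) ≠ 0 → bf M v (al s) ≤ bf M d (al s) / 2)}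
  have hNc : IsClosed N := by
    simp only [N, Set.ofPred_forall, Set.ofPred_and]
    exact isClosed_iInter fun s => (isClosed_le continuous_const (continuous_apply s)).inter
      (isClosed_iInter fun _ => isClosed_le (continuous_bf_left _) continuous_const)
  have hN : ∀ f : ℕ → B → ℝ, (∀ n, 0 ≤ f n) → Tendsto f atTop (𝓝 d) → ∀ᶠ n in atTop, f n ∈ N := by
    intro f hf hfl
    simp only [N, Set.mem_ofPred_eq, eventually_all]
    intro s
    refine Eventually.and ?_ ?_
    · rcases (hdK.1.1 s).lt_or_eq with h | h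
      · exact (tendsto_pi_nhds.1 hfl s).eventually_const_le (by
          simp only [Pi.zero_apply] at h; linarith)
      · refine Eventually.of_forall fun n => ?_
        simp only [Pi.zero_apply] at h
        rw [← h, zero_div]; exact hf n s
    · by_cases h : bf M d (al s) = 0
      · exact Eventually.of_forall fun n h' => absurd h h'
      · have h2 : bf M d (al s) < 0 := lt_of_le_of_ne (hdK.2.2 s) h
        exact ((tendsto_bf hfl tendsto_const_nhds).eventually_le_const
          (by linarith : bf M d (al s) < bf M d (al s) / 2)).mono fun n hn _ => hn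
  have hstay : ∀ᶠ n in atTop, q n ∈ N := by
    by_contra hc
    have f1 : ∃ᶠ n in atTop, q n ∈ N :=
      hφ.tendsto_atTop.frequently (hN _ (fun n => h0 _) hl).frequently
    obtain ⟨ψ, hψ, hψ2⟩ := extraction_of_frequently_atTop
      (frequently_leave f1 (not_eventually.1 hc))
    obtain ⟨a, haK, haa, φ', hφ', l1, l2⟩ := pair ψ hψ.tendsto_atTop
    have haN : a ∈ N := hNc.mem_of_tendsto l1 (Eventually.of_forall fun n => (hψ2 _).1)
    have had : a = d := by
      apply heq a haK d hdK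
      rw [bf_right_sum]
      refine Finset.sum_eq_zero fun s _ => ?_
      by_cases h : d s = 0
      · rw [h, zero_mul]
      · have h2 : 0 < d s := lt_of_le_of_ne (hdK.1.1 s) (Ne.symm h)
        have h3 : a s ≠ 0 := by linarith [(haN s).1] |> fun h : 0 < a s => h.ne'
        rw [(supp_of_orth H haK.1.1 haK.2.2 haK.1.1 haK.2.2 (hne a haK) haa h3).2, mul_zero]
    rw [had] at l2
    obtain ⟨n, hn⟩ := (hN _ (fun n => h0 _) l2).exists
    exact (hψ2 _).2 hn
  refine ⟨d, hdK.1.1, hdK.2.2, hne d hdK, hdd, hstay.mono fun n hn s hs => ?_⟩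
  by_contra hc
  have h2 := (hn s).2 hc
  have h3 : bf M d (al s) < 0 := lt_of_le_of_ne (hdK.2.2 s) hc
  linarith

theorem bad_case (H : Hyp cs) {x z : B → ℝ} (hx : InY cs x) (hzY : InY cs z)
    (hxx : bf M x x ≤ 0) (hxz : bf M x z < 0) (hzz : bf M z z = 0)
    (hz : ∀ w, ¬ Dom M (rho cs w z))
    (hb : ∀ C : ℝ, 0 < C → ∃ e₀ : ℝ, 0 < e₀ ∧ ∀ e, 0 < e → e ≤ e₀ → ∀ w,
      C * e < ht (rho cs w (e • x + z)) ^ 2) : False := by
  have hY : ∀ e : ℝ, 0 ≤ e → InY cs (e • x + z) := fun e he => (hx.smul he).add hzY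
  have hval : ∀ e : ℝ, bf M (e • x + z) (e • x + z) = e ^ 2 * bf M x x + 2 * e * bf M x z := by
    intro e
    have := bf_expand (M := M) e 1 x z
    rw [one_smul, hzz] at this
    rw [this]; ring
  have hneg : ∀ e : ℝ, 0 < e → bf M (e • x + z) (e • x + z) < 0 := by
    intro e he
    rw [hval]
    nlinarith [mul_nonneg (sq_nonneg e) (neg_nonneg.2 hxx), mul_pos he (neg_pos.2 hxz)]
  obtain ⟨w₀, hw₀⟩ := (hY 1 zero_le_one).exists_dom H (hneg 1 one_pos)
  obtain ⟨w, e, s, he0, hw⟩ := walk hw₀ hz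
  have he : ∀ n, 0 < e n := fun n => (hw n).1
  have hanti : Antitone e := antitone_nat_of_succ_le fun n => (hw n).2.1
  have hdec : StrictAnti fun n => ht (rho cs (w n) z) := strictAnti_nat_of_succ_lt fun n => by
    rw [(hw n).2.2.1, rho_mul, ht_simple]
    linarith [(hw n).2.2.2.2.2.2]
  have hinj : Function.Injective w := fun a b h => hdec.injective (by simp only [h])
  have he1 : ∀ n, e n ≤ 1 := fun n => he0 ▸ hanti (Nat.zero_le n)
  have hbdd : BddBelow (Set.range e) := ⟨0, by rintro _ ⟨n, rfl⟩; exact (he n).le⟩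
  have hL := tendsto_atTop_ciInf hanti hbdd
  have hL0 : ⨅ n, e n = 0 := by
    refine le_antisymm ?_ (le_ciInf fun n => (he n).le)
    by_contra hc
    push Not at hc
    obtain ⟨F, hF, hev⟩ := local_Y H (hY _ hc.le) (hneg _ hc)
    refine not_eventually_mem hinj hF ?_
    filter_upwards [((hL.smul_const x).add_const z).eventually hev] with n hn
    exact hn.2.1 _ (hw n).2.2.2.1
  rw [hL0] at hL
  let p : ℕ → B → ℝ := fun n => rho cs (w n) (e n • x + z)
  have hp0 : ∀ n, 0 ≤ p n := fun n => hY _ (he n).le _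
  have hpos : ∀ n, 0 < ht (p n) := fun n => ht_pos (hp0 n) fun h => by
    have := hneg _ (he n)
    rw [← bf_rho cs (w n)] at this
    change bf M (p n) (p n) < 0 at this
    rw [h] at this
    simp at this
  let q : ℕ → B → ℝ := fun n => (ht (p n))⁻¹ • p n
  have hq1 : ∀ n, ht (q n) = 1 := fun n => by rw [ht_smul, inv_mul_cancel₀ (hpos n).ne']
  have hq0 : ∀ n, 0 ≤ q n := fun n => smul_nonneg (inv_nonneg.2 (hpos n).le) (hp0 n)
  have hqd : ∀ n, Dom M (q n) := fun n => (hw n).2.2.2.1.smul (inv_nonneg.2 (hpos n).le)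
  set C' := -bf M x x - 2 * bf M x z with hC'
  have hC0 : 0 < C' := by linarith
  have hlim : Tendsto (fun n => bf M (q n + q (n + 1)) (q n + q (n + 1))) atTop (𝓝 0) := by
    rw [Metric.tendsto_nhds]
    intro κ hκ
    obtain ⟨e₀, he₀, hb⟩ := hb (4 * C' / κ) (by positivity)
    filter_upwards [hL.eventually_le_const he₀] with n hn
    set A := (ht (p n))⁻¹ with hA
    set A' := (ht (p (n + 1)))⁻¹ with hA'
    have hA0 : 0 < A := inv_pos.2 (hpos n)
    have hA0' : 0 < A' := inv_pos.2 (hpos (n + 1))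
    set c := (A * e n + A' * e (n + 1)) / (A + A') with hc
    have hc0 : 0 < c := div_pos (add_pos (mul_pos hA0 (he _)) (mul_pos hA0' (he _))) (by linarith)
    have hc1 : c ≤ e n := by
      rw [hc, div_le_iff₀ (by linarith)]
      nlinarith [mul_le_mul_of_nonneg_left (hw n).2.1 hA0'.le]
    have e1 : q n + q (n + 1) = (A + A') • rho cs (w n) (c • x + z) := by
      have e2 : (A + A') * c = A * e n + A' * e (n + 1) := by rw [hc]; field_simp
      have e3 : p (n + 1) = rho cs (w n) (e (n + 1) • x + z) := (hw n).2.2.2.2.1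
      change A • p n + A' • p (n + 1) = _
      rw [e3]
      simp only [p, map_add, map_smul, smul_add, smul_smul, e2]
      module
    have e2 : (A + A') * ht (rho cs (w n) (c • x + z)) = 2 := by
      rw [← ht_smul, ← e1, ht_add, hq1, hq1]; norm_num
    have e3 := hb c hc0 (hc1.trans hn) (w n)
    have e4 : bf M (q n + q (n + 1)) (q n + q (n + 1)) =
        (A + A') ^ 2 * (c ^ 2 * bf M x x + 2 * c * bf M x z) := by
      rw [e1]
      simp only [map_smul, LinearMap.smul_apply, smul_eq_mul]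
      rw [bf_rho, hval]; ring
    have e5 : (A + A') ^ 2 * (C' * c) < κ := by
      have h1 : (A + A') ^ 2 * (4 * C' / κ * c) < 4 := by
        calc _ < (A + A') ^ 2 * ht (rho cs (w n) (c • x + z)) ^ 2 :=
              mul_lt_mul_of_pos_left e3 (by positivity)
          _ = 4 := by rw [← mul_pow, e2]; norm_num
      have h2 : (A + A') ^ 2 * (4 * C' / κ * c) = 4 * ((A + A') ^ 2 * (C' * c)) / κ := by ring
      rw [h2, div_lt_iff₀ hκ] at h1
      linarith
    have e6 : -(C' * c) ≤ c ^ 2 * bf M x x + 2 * c * bf M x z := by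
      have h1 : c ^ 2 ≤ c := by nlinarith [hc1.trans (he1 n)]
      nlinarith [mul_le_mul_of_nonneg_right h1 (neg_nonneg.2 hxx)]
    have e7 : c ^ 2 * bf M x x + 2 * c * bf M x z ≤ 0 := by rw [← hval]; exact (hneg c hc0).le
    rw [Real.dist_eq, sub_zero, e4, abs_lt]
    constructor
    · nlinarith [mul_le_mul_of_nonneg_left e6 (sq_nonneg (A + A'))]
    · exact (mul_nonpos_of_nonneg_of_nonpos (sq_nonneg _) e7).trans_lt hκ
  obtain ⟨d, hd0, hdd, hdne, hdiso, hev⟩ := stay_near H q hq0 hq1 hqd hlim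
  obtain ⟨N, hN⟩ := eventually_atTop.1 hev
  have hs : ∀ n, N ≤ n → bf M d (al (s n)) = 0 := fun n hn => hN (n + 1) (by omega) _ (by
    simp only [q, map_smul, LinearMap.smul_apply, smul_eq_mul]
    rw [show bf M (p (n + 1)) (al (s n)) = 0 from (hw n).2.2.2.2.2.1, mul_zero])
  have hfix : ∀ n, N ≤ n → rho cs (w n * (w N)⁻¹) d = d := by
    intro n hn
    induction n, hn using Nat.le_induction with
    | base => simp
    | succ n hn ih =>
      rw [(hw n).2.2.1, mul_assoc, rho_mul, ih]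
      exact (simple_mem_Stab cs).2 (hs n hn)
  have hzN : bf M (rho cs (w N) z) (rho cs (w N) z) = 0 := by rw [bf_rho, hzz]
  rcases (hdd.bf_nonpos (hzY (w N))).lt_or_eq with h | h
  · have hfin := proper H ((hzY.rho (w N)).add (hdd.inY hd0)) (by
      have := bf_expand (M := M) 1 1 d (rho cs (w N) z)
      rw [one_smul, one_smul, add_comm] at this
      rw [this, hzN, hdiso]; linarith) (ht (rho cs (w N) z) + ht d)
    refine not_eventually_mem (w := fun n => w n * (w N)⁻¹)
      (fun a b h => hinj (mul_right_cancel h)) hfin ?_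
    filter_upwards [eventually_ge_atTop N] with n hn
    rw [map_add, hfix n hn, rho_mul, rho_inv_self, ht_add]
    linarith [hdec.antitone hn]
  · obtain ⟨t, ht0, ht⟩ := smul_of_iso H hd0 hdd hdne (hzY (w N)) hzN.le h
    exact hz (w N) (ht ▸ hdd.smul ht0)

theorem extend (H : Hyp cs) {y y' : B → ℝ} (hy : InY cs y) (hy' : InY cs y') (hne : y ≠ 0)
    (hne' : y' ≠ 0) (h1 : bf M y y = 0) (h2 : bf M y' y' = 0) (h3 : bf M y y' = 0) :
    ∃ η : ℝ, 0 < η ∧ InY cs (y - η • y') := by
  have fin : ∀ (k : B → ℝ) (w : W), 0 ≤ k → Dom M k → k ≠ 0 → bf M k (rho cs w y) = 0 →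
      bf M k (rho cs w y') = 0 → ∃ η : ℝ, 0 < η ∧ InY cs (y - η • y') := by
    intro k w k0 kd kne a b
    obtain ⟨t, ht0, ht⟩ := smul_of_iso H k0 kd kne (hy w) (by rw [bf_rho, h1]) a
    obtain ⟨t', ht0', ht'⟩ := smul_of_iso H k0 kd kne (hy' w) (by rw [bf_rho, h2]) b
    have n1 : t ≠ 0 := by
      rintro rfl
      exact hne (rho_injective cs w (by rw [ht, zero_smul, map_zero]))
    have n2 : t' ≠ 0 := by
      rintro rfl
      exact hne' (rho_injective cs w (by rw [ht', zero_smul, map_zero]))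
    refine ⟨t / t', by positivity, ?_⟩
    have : y - (t / t') • y' = 0 := by
      apply rho_injective cs w
      rw [map_sub, map_smul, ht, ht', smul_smul, div_mul_cancel₀ _ n2, sub_self, map_zero]
    rw [this]
    exact fun u => by rw [map_zero]
  obtain ⟨x, hx0, hxd, hxne, -⟩ := exists_dom (M := M) Set.univ hy.nonneg hne (by simp) h1.le
  rcases (hxd.bf_nonpos hy.nonneg).lt_or_eq with hxy | hxy
  swap
  · obtain ⟨t, ht0, ht⟩ := smul_of_iso H hx0 hxd hxne hy.nonneg h1.le hxy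
    exact fin y 1 hy.nonneg (ht ▸ hxd.smul ht0) hne (by simpa using h1) (by simpa using h3)
  have hz1 : bf M (y + y') y = 0 := by rw [map_add, LinearMap.add_apply, h1, bf_symm, h3, add_zero]
  have hz2 : bf M (y + y') y' = 0 := by rw [map_add, LinearMap.add_apply, h3, h2, add_zero]
  by_cases hz : ∃ w, Dom M (rho cs w (y + y'))
  · obtain ⟨w, hw⟩ := hz
    refine fin _ w ((hy.add hy') w) hw (fun h => hne ?_) (by rw [bf_rho, hz1]) (by rw [bf_rho, hz2])
    have h4 : y + y' = 0 := rho_injective cs w (by rw [h, map_zero])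
    exact le_antisymm (h4 ▸ le_add_of_nonneg_right hy'.nonneg) hy.nonneg
  push Not at hz
  by_contra hc
  refine bad_case H (hxd.inY hx0) (hy.add hy') (hxd.bf_nonpos hx0)
    (by rw [map_add]; linarith [hxd.bf_nonpos hy'.nonneg]) (by rw [map_add, hz1, hz2, add_zero])
    hz fun C hC => ?_
  by_contra hg
  push Not at hg
  choose e he1 he2 w hw using fun n : ℕ => hg (1 / ((n : ℝ) + 1)) Nat.one_div_pos_of_nat
  exact hc (good_case H (hxd.inY hx0) hy hy' (hxd.bf_nonpos hx0) hxy h1 hC w e he1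
    (squeeze_zero (fun n => (he1 n).le) he2 tendsto_one_div_add_atTop_nhds_zero_nat) hw)

theorem neg_type (H : Hyp cs) {y y' : B → ℝ} (hy : InY cs y) (hy' : InY cs y') (hne : y' ≠ 0)
    (h1 : bf M y y = 0) (h2 : bf M y' y' = 0) (h3 : bf M y y' = 0) : ∃ t : ℝ, y = t • y' := by
  let T : Set ℝ := {t | InY cs (y - t • y')}
  have hTc : IsClosed T := isClosed_InY.preimage (f := fun t : ℝ => y - t • y') (by fun_prop)
  have hT0 : T.Nonempty := ⟨0, by simpa [T] using hy⟩
  have hTb : BddAbove T := by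
    obtain ⟨s, hs⟩ := Function.ne_iff.1 hne
    have hs' : 0 < y' s := lt_of_le_of_ne (hy'.nonneg s) (Ne.symm hs)
    refine ⟨y s / y' s, fun t ht => ?_⟩
    have := InY.nonneg ht s
    simp only [Pi.zero_apply, Pi.sub_apply, Pi.smul_apply, smul_eq_mul] at this
    rw [le_div_iff₀ hs']; linarith
  have hmem : InY cs (y - sSup T • y') := hTc.csSup_mem hT0 hTb
  refine ⟨sSup T, ?_⟩
  by_contra hc
  obtain ⟨η, hη, hη2⟩ := extend H hmem hy' (sub_ne_zero.2 hc) hne (by
    simp only [map_sub, map_smul, LinearMap.sub_apply, LinearMap.smul_apply, smul_eq_mul]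
    rw [bf_symm y' y, h1, h2, h3]; ring) h2 (by
    simp only [map_sub, map_smul, LinearMap.sub_apply, LinearMap.smul_apply, smul_eq_mul]
    rw [h2, h3]; ring)
  have : sSup T + η ∈ T := by
    rw [sub_sub, ← add_smul] at hη2
    exact hη2
  linarith [le_csSup hTb this]

end Pool.Agent.Lib.MP_e21d7a_al.Cls
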