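import Pool.Agent.Lib.MP_e21d7a_al.Cls.Neg

/-! Infinite reduced words and their inversion roots. -/

set_option linter.unusedSectionVars false

namespace Pool.Agent.Lib.MP_e21d7a_al.Cls

open Filter Topology CoxeterSystem

variable {B W : Type*} [Group W] [Fintype B] [DecidableEq B] {M : CoxeterMatrix B} [Gram M]
  (cs : CoxeterSystem M W)

/-- The initial word of length `k`, as a group element. -/
def pre (s : ℕ → B) (k : ℕ) : W := cs.wordProd (List.ofFn fun j : Fin k => s j)

/-- The inversion roots. -/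
noncomputable def beta (s : ℕ → B) (k : ℕ) : B → ℝ := rho cs (pre cs s k) (al (s k))

/-- Infinite reduced words. -/
def Red (s : ℕ → B) : Prop := ∀ k : ℕ, cs.IsReduced (List.ofFn fun j : Fin k => s j)

theorem pre_zero (s : ℕ → B) : pre cs s 0 = 1 := by simp [pre]

theorem pre_succ (s : ℕ → B) (k : ℕ) : pre cs s (k + 1) = pre cs s k * cs.simple (s k) := by
  unfold pre
  rw [List.ofFn_succ_last, wordProd_append]
  simp

theorem red_iff (s : ℕ → B) : Red cs s ↔ ∀ k, cs.length (pre cs s k) = k := by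
  simp [Red, CoxeterSystem.IsReduced, pre]

theorem isRoot_beta (s : ℕ → B) (k : ℕ) : IsRoot cs (beta cs s k) := ⟨_, _, rfl⟩

variable {cs}

theorem Red.length_seg {s : ℕ → B} (hs : Red cs s) (j d : ℕ) :
    cs.length ((pre cs s j)⁻¹ * pre cs s (j + d)) = d := by
  apply le_antisymm
  · induction d with
    | zero => simp
    | succ d ih =>
      rw [← add_assoc, pre_succ, ← mul_assoc]
      have := cs.length_mul_le ((pre cs s j)⁻¹ * pre cs s (j + d)) (cs.simple (s (j + d)))
      rw [length_simple] at this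
      omega
  · have := cs.length_mul_le (pre cs s j) ((pre cs s j)⁻¹ * pre cs s (j + d))
    rw [mul_inv_cancel_left, (red_iff cs s).1 hs, (red_iff cs s).1 hs] at this
    omega

theorem Red.pull_nonneg {s : ℕ → B} (hs : Red cs s) {j k : ℕ} (h : j ≤ k) :
    0 ≤ rho cs (pre cs s j)⁻¹ (beta cs s k) := by
  obtain ⟨d, rfl⟩ := Nat.exists_eq_add_of_le h
  rw [beta, ← rho_mul]
  apply rho_al_nonneg
  rw [mul_assoc, ← pre_succ, add_assoc, hs.length_seg, hs.length_seg]
  omega

theorem Red.pull_nonpos {s : ℕ → B} (hs : Red cs s) {j k : ℕ} (h : k < j) :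
    rho cs (pre cs s j)⁻¹ (beta cs s k) ≤ 0 := by
  obtain ⟨d, rfl⟩ := Nat.exists_eq_add_of_lt h
  rw [beta, ← rho_mul]
  apply rho_al_nonpos
  have h1 := hs.length_seg k (d + 1)
  have h2 := hs.length_seg (k + 1) d
  rw [← length_inv, mul_inv_rev, inv_inv] at h1 h2
  rw [mul_assoc, ← pre_succ, show k + d + 1 = k + 1 + d by ring, h2,
    show k + 1 + d = k + (d + 1) by ring, h1]
  omega

theorem Red.beta_nonneg {s : ℕ → B} (hs : Red cs s) (k : ℕ) : 0 ≤ beta cs s k := by
  simpa [pre_zero] using hs.pull_nonneg (Nat.zero_le k)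

theorem Red.beta_injective {s : ℕ → B} (hs : Red cs s) : Function.Injective (beta cs s) := by
  have key : ∀ j k, j < k → beta cs s j ≠ beta cs s k := fun j k h e =>
    ((isRoot_beta cs s k).rho _).not_both (hs.pull_nonneg le_rfl) (e ▸ hs.pull_nonpos h)
  intro j k e
  rcases lt_trichotomy j k with h | h | h
  · exact absurd e (key j k h)
  · exact h
  · exact absurd e.symm (key k j h)

theorem Red.beta_bf {s : ℕ → B} (hs : Red cs s) (j k : ℕ) :
    -1 < bf M (beta cs s j) (beta cs s k) := by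
  by_contra hc
  have h1 := (good_add (isRoot_beta cs s j) (isRoot_beta cs s k) (hs.beta_nonneg j)
    (hs.beta_nonneg k) (not_lt.1 hc)).nonneg (pre cs s (j + k + 1))⁻¹
  rw [map_add] at h1
  have h2 := hs.pull_nonpos (j := j + k + 1) (k := j) (by omega)
  have h3 := hs.pull_nonpos (j := j + k + 1) (k := k) (by omega)
  exact ((isRoot_beta cs s j).rho _).not_both (h1.trans (add_le_of_nonpos_right h3)) h2

theorem Red.eventually_notMem {s : ℕ → B} (hs : Red cs s) {F : Set (B → ℝ)} (hF : F.Finite) :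
    ∀ᶠ k in atTop, beta cs s k ∉ F := by
  have h1 := hs.beta_injective.tendsto_cofinite.eventually hF.eventually_cofinite_notMem
  rwa [Nat.cofinite_eq_atTop] at h1

theorem Red.ht_tendsto {s : ℕ → B} (hs : Red cs s) :
    Tendsto (fun k => ht (beta cs s k)) atTop atTop := by
  rw [tendsto_atTop]
  intro R
  filter_upwards [hs.eventually_notMem (finite_roots cs R)] with k hk
  by_contra hc
  refine hk ⟨isRoot_beta cs s k, fun t => ?_⟩
  rw [abs_of_nonneg (hs.beta_nonneg k t)]
  exact (le_ht (hs.beta_nonneg k) t).trans (not_le.1 hc).le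

theorem Red.eventually_nonneg {s : ℕ → B} (hs : Red cs s) (w : W) :
    ∀ᶠ k in atTop, 0 ≤ rho cs w (beta cs s k) := by
  filter_upwards [hs.eventually_notMem (finite_rho_al cs (cs.length w))] with k hk
  by_contra hc
  obtain ⟨u, t, h1, h2⟩ := inversion cs (isRoot_beta cs s k) (hs.beta_nonneg k)
    (((isRoot_beta cs s k).rho w).nonpos_iff.2 hc)
  exact hk ⟨u, t, h1.le, h2⟩

theorem Red.ht_pos {s : ℕ → B} (hs : Red cs s) (k : ℕ) : 0 < ht (beta cs s k) :=
  Cls.ht_pos (hs.beta_nonneg k) fun h => by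
    have := (isRoot_beta cs s k).norm
    rw [h] at this
    simp at this

/-- The normalised inversion roots. -/
noncomputable def nb (cs : CoxeterSystem M W) (s : ℕ → B) (k : ℕ) : B → ℝ :=
  (ht (beta cs s k))⁻¹ • beta cs s k

theorem Red.nb_mem {s : ℕ → B} (hs : Red cs s) (k : ℕ) : 0 ≤ nb cs s k ∧ ht (nb cs s k) = 1 :=
  ⟨smul_nonneg (inv_nonneg.2 (hs.ht_pos k).le) (hs.beta_nonneg k), by
    rw [nb, ht_smul, inv_mul_cancel₀ (hs.ht_pos k).ne']⟩

theorem Red.exists_subseq {s : ℕ → B} (hs : Red cs s) (ψ : ℕ → ℕ) :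
    ∃ (x : B → ℝ) (φ : ℕ → ℕ), ht x = 1 ∧ StrictMono φ ∧
      Tendsto (fun n => nb cs s (ψ (φ n))) atTop (𝓝 x) := by
  obtain ⟨x, -, φ, hφ, hl⟩ := (isCompact_ht (B := B) 1).tendsto_subseq
    (x := fun n => nb cs s (ψ n)) fun n => ⟨(hs.nb_mem _).1, (hs.nb_mem _).2.le⟩
  exact ⟨x, φ, tendsto_nhds_unique ((continuous_ht.tendsto x).comp hl)
    (tendsto_const_nhds.congr fun n => (hs.nb_mem _).2.symm), hφ, hl⟩

theorem Red.lim_eq (H : Hyp cs) {s : ℕ → B} (hs : Red cs s) {φ ψ : ℕ → ℕ} {x y : B → ℝ}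
    (hφ : Tendsto φ atTop atTop) (hψ : Tendsto ψ atTop atTop) (x1 : ht x = 1) (y1 : ht y = 1)
    (hx : Tendsto (fun n => nb cs s (φ n)) atTop (𝓝 x))
    (hy : Tendsto (fun n => nb cs s (ψ n)) atTop (𝓝 y)) : x = y := by
  have inv0 : Tendsto (fun k => (ht (beta cs s k))⁻¹) atTop (𝓝 0) := hs.ht_tendsto.inv_tendsto_atTop
  have hY : ∀ {φ : ℕ → ℕ} {x : B → ℝ}, Tendsto φ atTop atTop →
      Tendsto (fun n => nb cs s (φ n)) atTop (𝓝 x) → InY cs x := by
    intro φ x hφ hx w
    refine ge_of_tendsto (((continuous_rho cs w).tendsto x).comp hx) ?_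
    filter_upwards [hφ.eventually (hs.eventually_nonneg w)] with n hn
    rw [Function.comp_apply, nb, map_smul]
    exact smul_nonneg (inv_nonneg.2 (hs.ht_pos _).le) hn
  have hB : ∀ {φ ψ : ℕ → ℕ} {x y : B → ℝ}, Tendsto φ atTop atTop → Tendsto ψ atTop atTop →
      Tendsto (fun n => nb cs s (φ n)) atTop (𝓝 x) →
      Tendsto (fun n => nb cs s (ψ n)) atTop (𝓝 y) → 0 ≤ bf M x y := by
    intro φ ψ x y hφ hψ hx hy
    have t1 := ((inv0.comp hφ).mul (inv0.comp hψ)).neg
    rw [mul_zero, neg_zero] at t1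
    refine le_of_tendsto_of_tendsto' t1 (tendsto_bf hx hy) fun n => ?_
    simp only [nb, map_smul, LinearMap.smul_apply, smul_eq_mul, Function.comp_apply]
    nlinarith [mul_pos (inv_pos.2 (hs.ht_pos (φ n))) (inv_pos.2 (hs.ht_pos (ψ n))),
      hs.beta_bf (φ n) (ψ n)]
  have e := bf_expand (M := M) 1 1 x y
  rw [one_smul, one_smul] at e
  have h1 := ((hY hφ hx).add (hY hψ hy)).bf_self_nonpos
  have h2 := hB hφ hφ hx hx
  have h3 := hB hφ hψ hx hy
  have h4 := hB hψ hψ hy hy
  obtain ⟨t, ht⟩ := neg_type H (hY hφ hx) (hY hψ hy) (by rintro rfl; simp [Cls.ht] at y1)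
    (by linarith) (by linarith) (by linarith)
  rw [ht, ht_smul, y1, mul_one] at x1
  rw [ht, x1, one_smul]

theorem Red.nb_conv (H : Hyp cs) {s : ℕ → B} (hs : Red cs s) :
    ∃ x, Tendsto (nb cs s) atTop (𝓝 x) := by
  obtain ⟨x, φ, x1, hφ, hx⟩ := hs.exists_subseq id
  refine ⟨x, tendsto_of_subseq_tendsto fun ψ hψ => ?_⟩
  obtain ⟨y, φ', y1, hφ', hy⟩ := hs.exists_subseq ψ
  exact ⟨φ', hs.lim_eq H hφ.tendsto_atTop (hψ.comp hφ'.tendsto_atTop) x1 y1 hx hy ▸ hy⟩

theorem supp_rho {I J : Set B} (hIJ : ∀ i ∈ I, ∀ j ∈ J, M i j = 2) {w : W}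
    (hw : w ∈ WJ cs (I ∪ J)) {v : B → ℝ} (hv : ∀ t, t ∉ I → v t = 0) :
    ∀ t, t ∉ I → rho cs w v t = 0 := by
  induction hw using Subgroup.closure_induction_left generalizing v with
  | one => simpa using hv
  | mul_left x hx y _ ih | inv_mul_cancel x hx y _ ih =>
    obtain ⟨r, hr, rfl⟩ := hx
    intro t ht
    try rw [inv_simple]
    rw [rho_mul]
    rcases hr with hr | hr
    · rw [rho_simple_coord r _ (fun h : t = r => ht (h ▸ hr)), ih hv t ht]
    · have : bf M (al r) (rho cs y v) = 0 := by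
        rw [bf_right_sum]
        refine Finset.sum_eq_zero fun i _ => ?_
        by_cases hi : i ∈ I
        · rw [bf_al_al, cm_symm, cm_eq_zero_iff.2 (hIJ i hi r hr), mul_zero]
        · rw [ih hv i hi, zero_mul]
      rw [rho_simple, this]
      simpa using ih hv t ht

theorem exists_two {I J : Set B} (hIJ : ∀ i ∈ I, ∀ j ∈ J, M i j = 2)
    (hI : (WJ cs I : Set W).Infinite) (hJ : (WJ cs J : Set W).Infinite) :
    ∃ s : ℕ → B, Red cs s ∧ (∀ k t, t ∉ I → beta cs s (2 * k) t = 0) ∧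
      ∀ k t, t ∉ J → beta cs s (2 * k + 1) t = 0 := by
  have asc : ∀ Z : Set B, (WJ cs Z : Set W).Infinite → ∀ w, ∃ r, r ∈ Z ∧
      cs.length (w * cs.simple r) = cs.length w + 1 := by
    intro Z hZ w
    obtain ⟨k, a, b, c, d⟩ := exists_dom_of_infinite cs Z hZ
    obtain ⟨r, h1, h2⟩ := exists_ascent cs a b c w
    exact ⟨r, by by_contra hc; exact h1 (d r hc), h2⟩
  choose f hf1 hf2 using asc I hI
  choose g hg1 hg2 using asc J hJ
  let c : ℕ → W → B := fun n w => if Even n then f w else g w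
  let p : ℕ → W := fun n => Nat.rec 1 (fun n w => w * cs.simple (c n w)) n
  let s : ℕ → B := fun n => c n (p n)
  have hp : ∀ n, pre cs s n = p n := by
    intro n
    induction n with
    | zero => exact pre_zero cs s
    | succ n ih => rw [pre_succ, ih]
  have hmem : ∀ n, pre cs s n ∈ WJ cs (I ∪ J) := by
    intro n
    induction n with
    | zero => rw [pre_zero]; exact one_mem _
    | succ n ih =>
      rw [pre_succ]
      refine mul_mem ih (simple_mem_WJ cs ?_)
      simp only [s, c]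
      split_ifs
      · exact Or.inl (hf1 _)
      · exact Or.inr (hg1 _)
  refine ⟨s, (red_iff cs s).2 fun n => ?_, fun k => ?_, fun k => ?_⟩
  · induction n with
    | zero => simp [pre_zero]
    | succ n ih =>
      rw [pre_succ, hp]
      rw [hp] at ih
      simp only [s, c]
      split_ifs
      · rw [hf2, ih]
      · rw [hg2, ih]
  · refine supp_rho hIJ (hmem _) fun t ht => al_ne fun h => ht ?_
    rw [h]
    simp only [s, c, if_pos (even_two_mul k)]
    exact hf1 _
  · refine supp_rho (J := I) (fun j hj i hi => (M.symmetric j i).trans (hIJ i hi j hj))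
      (Set.union_comm I J ▸ hmem _) fun t ht => al_ne fun h => ht ?_
    rw [h]
    simp only [s, c, if_neg (Nat.not_even_iff_odd.2 (odd_two_mul_add_one k))]
    exact hg1 _

end Pool.Agent.Lib.MP_e21d7a_al.Cls
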